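import Pool.Agent.Lib.MP_619567_an.Stm

/-!
# MP_619567_an, piece ALT: both signs occur arbitrarily far to the left
-/

set_option autoImplicit false

open Filter Topology Set UpperHalfPlane

namespace Pool.Agent.Lib.MP_619567_an

private theorem alt_exp (lam φ : ℝ) (hlam : 0 < lam) (j : ℕ) :
    Complex.exp (sv lam * (((φ - 2 * Real.pi * j) / lam : ℝ) : ℂ)) =
      ((Real.exp (((φ - 2 * Real.pi * j) / lam) / 2) : ℝ) : ℂ) * Complex.exp (φ * Complex.I) := by
  have h1 : sv lam * (((φ - 2 * Real.pi * j) / lam : ℝ) : ℂ) =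
      ((((φ - 2 * Real.pi * j) / lam) / 2 : ℝ) : ℂ) + (φ * Complex.I +
        ((-(j : ℤ) : ℤ) : ℂ) * (2 * Real.pi * Complex.I)) := by
    have h0 : (lam : ℂ) ≠ 0 := by exact_mod_cast hlam.ne'
    unfold sv
    push_cast
    field_simp
    ring
  rw [h1, Complex.exp_add, Complex.exp_add, Complex.exp_int_mul_two_pi_mul_I, mul_one,
    Complex.ofReal_exp]

private theorem alt_pos (hord : S_ord) (heps : S_eps) (hga : S_ga) (hgnz : S_gnz) (hbnd : S_bnd)
    (hmaj : S_maj) (ℓ lam : ℝ) (hℓ : 0 < ℓ) (hlam : 0 < lam) (c : ℂ) (hc : c ≠ 0) (T0 : ℝ) :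
    ∃ t < T0, 0 < (c * G ℓ (sv lam) t 0).re := by
  obtain ⟨m, a, ha, hlim⟩ := hord heps hga hgnz hbnd hmaj ℓ lam hℓ
  have hw : c * a ≠ 0 := mul_ne_zero hc ha
  obtain ⟨φ, hφ⟩ : ∃ φ : ℝ, φ = - Complex.arg (c * a) := ⟨_, rfl⟩
  set t : ℕ → ℝ := fun j => (φ - 2 * Real.pi * j) / lam with ht
  have hπ := Real.pi_pos
  have htb : Tendsto t atTop atBot := by
    have h1 : Tendsto (fun j : ℕ => 2 * Real.pi * (j : ℝ)) atTop atTop :=
      tendsto_natCast_atTop_atTop.const_mul_atTop (by positivity)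
    have h2 : Tendsto (fun j : ℕ => φ - 2 * Real.pi * (j : ℝ)) atTop atBot := by
      simp only [sub_eq_add_neg]
      exact tendsto_atBot_add_const_left _ _ (tendsto_neg_atTop_atBot.comp h1)
    exact h2.atBot_div_const hlam
  have hε : Tendsto (fun j => Real.exp (2 * t j)) atTop (𝓝[>] 0) := by
    rw [tendsto_nhdsWithin_iff]
    refine ⟨?_, Eventually.of_forall fun j => Real.exp_pos _⟩
    exact Real.tendsto_exp_atBot.comp (htb.const_mul_atBot (by norm_num))
  have h1 := hlim.comp hε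
  have h2 : c * Complex.exp (φ * Complex.I) * a = ((‖c * a‖ : ℝ) : ℂ) := by
    have h3 := Complex.norm_mul_exp_arg_mul_I (c * a)
    have h4 : Complex.exp (φ * Complex.I) * Complex.exp (Complex.arg (c * a) * Complex.I) = 1 := by
      rw [← Complex.exp_add, hφ]
      push_cast
      rw [← Complex.exp_zero]
      congr 1
      ring
    calc c * Complex.exp (φ * Complex.I) * a = Complex.exp (φ * Complex.I) * (c * a) := by ring
      _ = Complex.exp (φ * Complex.I) * (((‖c * a‖ : ℝ) : ℂ) *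
          Complex.exp (Complex.arg (c * a) * Complex.I)) := by rw [h3]
      _ = ((‖c * a‖ : ℝ) : ℂ) * (Complex.exp (φ * Complex.I) *
          Complex.exp (Complex.arg (c * a) * Complex.I)) := by ring
      _ = _ := by rw [h4, mul_one]
  have h5 : Tendsto (fun j => (c * Complex.exp (φ * Complex.I) *
      (A ℓ (sv lam) ((Real.exp (2 * t j) : ℝ) : ℂ) 0 / ((Real.exp (2 * t j) : ℝ) : ℂ) ^ m)).re)
      atTop (𝓝 ‖c * a‖) := by
    have h6 := (Complex.continuous_re.tendsto _).comp (h1.const_mul (c * Complex.exp (φ * Complex.I)))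
    rw [h2, Complex.ofReal_re] at h6
    exact h6
  have hpos : (0 : ℝ) < ‖c * a‖ := norm_pos_iff.2 hw
  obtain ⟨j, hj1, hj2⟩ := ((h5.eventually (eventually_gt_nhds hpos)).and
    (htb.eventually (eventually_lt_atBot T0))).exists
  refine ⟨t j, hj2, ?_⟩
  have h7 : c * G ℓ (sv lam) (t j) 0 =
      ((Real.exp (t j / 2) * Real.exp (2 * t j) ^ m : ℝ) : ℂ) * (c * Complex.exp (φ * Complex.I) *
      (A ℓ (sv lam) ((Real.exp (2 * t j) : ℝ) : ℂ) 0 / ((Real.exp (2 * t j) : ℝ) : ℂ) ^ m)) := by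
    have h8 := hga ℓ (sv lam) (t j) 0
    have h10 : Complex.exp (sv lam * ((t j : ℝ) : ℂ)) =
      ((Real.exp (t j / 2) : ℝ) : ℂ) * Complex.exp (φ * Complex.I) := alt_exp lam φ hlam j
    have h9 : ((Real.exp (2 * t j) : ℝ) : ℂ) ^ m ≠ 0 :=
      pow_ne_zero _ (by exact_mod_cast (Real.exp_pos _).ne')
    rw [h8, h10, Complex.ofReal_zero, Complex.ofReal_mul, Complex.ofReal_pow]
    generalize ((Real.exp (2 * t j) : ℝ) : ℂ) = ε at h9 ⊢
    generalize ((Real.exp (t j / 2) : ℝ) : ℂ) = δ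
    field_simp
  rw [h7, Complex.re_ofReal_mul]
  have h10 := Real.exp_pos (t j / 2)
  have h11 := Real.exp_pos (2 * t j)
  positivity

/-- ALT -/
theorem p_alt : S_alt := by
  intro hord heps hga hgnz hbnd hmaj ℓ lam hℓ hlam c hc T0
  refine ⟨alt_pos hord heps hga hgnz hbnd hmaj ℓ lam hℓ hlam c hc T0, ?_⟩
  obtain ⟨t, ht, h⟩ := alt_pos hord heps hga hgnz hbnd hmaj ℓ lam hℓ hlam (-c)
    (neg_ne_zero.2 hc) T0
  refine ⟨t, ht, ?_⟩
  rw [neg_mul, Complex.neg_re] at h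
  linarith

end Pool.Agent.Lib.MP_619567_an
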