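import Pool.Agent.Lib.MP_619567_an.Stm

/-! ANZ: `A ℓ s 0` does not vanish identically on the real line. -/

set_option autoImplicit false

open Filter Topology Set MeasureTheory

namespace Pool.Agent.Lib.MP_619567_an

/-- If all sums of an integrable function over the translates of a lattice vanish, its integral
vanishes. -/
theorem anz_integral_eq_zero (f : ℝ → ℂ) (hf : Integrable f) (ℓ : ℝ) (hℓ : 0 < ℓ)
    (h0 : ∀ x : ℝ, ∑' n : ℤ, f (x - n * ℓ) = 0) : ∫ x, f x = 0 := by
  have hg : Integrable (fun x : ℝ => f (ℓ * x)) := hf.comp_mul_left' hℓ.ne'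
  have hgn : Integrable (fun x : ℝ => ‖f (ℓ * x)‖) := hg.norm
  have h1 : HasSum (fun n : ℤ => ∫ x in (0 : ℝ)..1, f (ℓ * (x + n))) (∫ x, f (ℓ * x)) :=
    hg.hasSum_intervalIntegral_comp_add_int
  have h2 : HasSum (fun n : ℤ => ∫ x in (0 : ℝ)..1, ‖f (ℓ * (x + n))‖) (∫ x, ‖f (ℓ * x)‖) :=
    hgn.hasSum_intervalIntegral_comp_add_int
  have h3 : HasSum (fun n : ℤ => ∫ x in Ioc (0 : ℝ) 1, f (ℓ * (x + n)))
      (∫ x in Ioc (0 : ℝ) 1, ∑' n : ℤ, f (ℓ * (x + n))) := by
    apply hasSum_integral_of_summable_integral_norm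
    · intro n
      exact (hg.comp_add_right (n : ℝ)).integrableOn
    · have h4 := h2.summable
      simpa only [intervalIntegral.integral_of_le zero_le_one] using h4
  have h5 : ∀ x : ℝ, ∑' n : ℤ, f (ℓ * (x + n)) = 0 := by
    intro x
    rw [← h0 (ℓ * x), ← (Equiv.neg ℤ).tsum_eq]
    apply tsum_congr
    intro n
    congr 1
    simp only [Equiv.neg_apply, Int.cast_neg]
    ring
  simp only [h5, integral_zero] at h3
  simp only [intervalIntegral.integral_of_le zero_le_one] at h1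
  have h6 := h1.unique h3
  rw [Measure.integral_comp_mul_left] at h6
  rcases smul_eq_zero.1 h6 with h | h
  · exfalso
    rw [abs_eq_zero] at h
    exact (inv_ne_zero hℓ.ne') h
  · exact h

theorem p_anz : S_anz := by
  intro h1 h2 ℓ lam hℓ
  by_contra hcon
  push Not at hcon
  obtain ⟨h3, h4⟩ := h1 lam
  have h5 := anz_integral_eq_zero (fun u : ℝ => T (sv lam) 0 (u : ℂ)) h3 ℓ hℓ (by
    intro x
    refine Eq.trans ?_ (hcon x)
    unfold A
    apply tsum_congr
    intro n
    have h6 : ((x - n * ℓ : ℝ) : ℂ) = (x : ℂ) - n * ℓ := by push_cast; ring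
    simp only [h6])
  rw [h5] at h4
  exact mul_ne_zero (Complex.exp_ne_zero _) (h2 lam) h4.symm

end Pool.Agent.Lib.MP_619567_an
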