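import Pool.Agent.Lib.MP_619567_an.Stm

set_option autoImplicit false

open Filter Topology Set

namespace Pool.Agent.Lib.MP_619567_an

theorem p_beta : S_beta := by
  intro lam h
  have hs : 0 < (sv lam).re := by simp [sv]
  have h1 := Complex.Gamma_mul_Gamma_eq_betaIntegral hs hs
  rw [h, mul_zero] at h1
  have h2 := Complex.Gamma_ne_zero_of_re_pos hs
  exact (mul_ne_zero h2 h2) h1

end Pool.Agent.Lib.MP_619567_an
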