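import Pool.Agent.Lib.MP_619567_an.Stm

set_option autoImplicit false

open Filter Topology Set

namespace Pool.Agent.Lib.MP_619567_an

theorem p_bnd : S_bnd := by
  intro lam r w hr hw
  have hw0 : w ≠ 0 := by
    intro h; rw [h] at hw; simp at hw; linarith
  have hn : 0 < ‖w‖ := norm_pos_iff.2 hw0
  have hrn : r ≤ ‖w‖ := hw.trans ((le_abs_self _).trans (Complex.abs_re_le_norm w))
  rw [Complex.norm_exp]
  have h1 : (-sv lam * Complex.log (w / 4)).re =
      -(1 / 2) * Real.log (‖w‖ / 4) + lam * (w / 4).arg := by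
    rw [Complex.mul_re]
    simp only [sv, Complex.neg_re, Complex.neg_im, Complex.add_re, Complex.add_im, Complex.log_re,
      Complex.log_im, Complex.mul_re, Complex.mul_im, Complex.ofReal_re, Complex.ofReal_im,
      Complex.I_re, Complex.I_im]
    have : ‖w / 4‖ = ‖w‖ / 4 := by simp
    rw [this]
    norm_num
  rw [h1, Real.exp_add]
  have h2 : Real.exp (-(1 / 2) * Real.log (‖w‖ / 4)) = 2 / Real.sqrt ‖w‖ := by
    have h3 : Real.exp (-(1 / 2) * Real.log (‖w‖ / 4)) = (‖w‖ / 4) ^ (-(1 / 2) : ℝ) := by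
      rw [Real.rpow_def_of_pos (by positivity)]; ring_nf
    rw [h3, Real.rpow_neg (by positivity), ← Real.sqrt_eq_rpow, Real.sqrt_div' _ (by norm_num)]
    have : Real.sqrt 4 = 2 := by
      rw [show (4:ℝ) = 2 ^ 2 by norm_num]; exact Real.sqrt_sq (by norm_num)
    rw [this, inv_div]
  have h4 : Real.exp (lam * (w / 4).arg) ≤ Real.exp (Real.pi * |lam|) := by
    apply Real.exp_le_exp.2
    calc lam * (w / 4).arg ≤ |lam * (w / 4).arg| := le_abs_self _
      _ = |lam| * |(w / 4).arg| := abs_mul _ _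
      _ ≤ |lam| * Real.pi := by gcongr; exact Complex.abs_arg_le_pi _
      _ = _ := mul_comm _ _
  rw [h2]
  have h5 : 2 / Real.sqrt ‖w‖ ≤ 2 / Real.sqrt r := by
    apply div_le_div_of_nonneg_left (by norm_num) (Real.sqrt_pos.2 hr) (Real.sqrt_le_sqrt hrn)
  calc 2 / Real.sqrt ‖w‖ * Real.exp (lam * (w / 4).arg)
      ≤ 2 / Real.sqrt r * Real.exp (Real.pi * |lam|) := by
        apply mul_le_mul h5 h4 (Real.exp_pos _).le (by positivity)
    _ = _ := by ring

end Pool.Agent.Lib.MP_619567_an
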