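import Pool.Agent.Lib.MP_619567_an.Stm

set_option autoImplicit false

open Filter Topology Set UpperHalfPlane

namespace Pool.Agent.Lib.MP_619567_an

private lemma cnt_isOpen : IsOpen hstrip := by
  unfold hstrip
  exact isOpen_lt (continuous_abs.comp Complex.continuous_im) continuous_const

/-- the phase: `c e^(s t) = |c| e^(t/2) ω` for `lam * t = arg ω - arg c - 2π n`. -/
private lemma cnt_phase (lam t : ℝ) (c ω : ℂ) (n : ℕ) (hω : ‖ω‖ = 1)
    (ht : lam * t = Complex.arg ω - Complex.arg c - 2 * Real.pi * n) :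
    c * Complex.exp (sv lam * t) = ((‖c‖ * Real.exp (t / 2) : ℝ) : ℂ) * ω := by
  have h1 : sv lam * t = ((t / 2 : ℝ) : ℂ) + ((lam * t : ℝ) : ℂ) * Complex.I := by
    unfold sv; push_cast; ring
  have h2 : ((lam * t : ℝ) : ℂ) * Complex.I =
      (Complex.arg ω : ℂ) * Complex.I - (Complex.arg c : ℂ) * Complex.I -
        (n : ℂ) * (2 * Real.pi * Complex.I) := by
    rw [ht]; push_cast; ring
  have hc : c = (‖c‖ : ℂ) * Complex.exp ((Complex.arg c : ℂ) * Complex.I) :=
    (Complex.norm_mul_exp_arg_mul_I c).symm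
  have hw : Complex.exp ((Complex.arg ω : ℂ) * Complex.I) = ω := by
    have := Complex.norm_mul_exp_arg_mul_I ω
    rw [hω] at this
    simpa using this
  have h3 : Complex.exp ((n : ℂ) * (2 * Real.pi * Complex.I)) = 1 :=
    Complex.exp_nat_mul_two_pi_mul_I n
  rw [h1, h2, Complex.exp_add, Complex.exp_sub, Complex.exp_sub, h3, hw, div_one]
  rw [Complex.ofReal_mul, Complex.ofReal_exp]
  have h4 : c / Complex.exp ((Complex.arg c : ℂ) * Complex.I) = (‖c‖ : ℂ) := by
    rw [div_eq_iff (Complex.exp_ne_zero _)]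
    exact hc
  calc c * (Complex.exp ((t / 2 : ℝ) : ℂ) * (ω / Complex.exp ((Complex.arg c : ℂ) * Complex.I)))
      = (c / Complex.exp ((Complex.arg c : ℂ) * Complex.I)) * Complex.exp ((t / 2 : ℝ) : ℂ) * ω := by
        ring
    _ = _ := by rw [h4]

theorem p_cnt : S_cnt := by
  intro h_zero h_rolle h_dre h_nonflat h_dconv h_theta h_bnd h_maj h_anz h_intl h_beta h_ga
    ℓ lam hℓ hlam c hc
  obtain ⟨x, hx⟩ := h_anz h_intl h_beta ℓ lam hℓ
  set b : ℂ := A ℓ (sv lam) 0 (x : ℂ) with hb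
  have hbn : ‖b‖ ≠ 0 := norm_ne_zero_iff.2 hx
  obtain ⟨ω, hω, hωb⟩ : ∃ ω : ℂ, ‖ω‖ = 1 ∧ (ω * b).re ≠ 0 := by
    refine ⟨(starRingEnd ℂ) b / (‖b‖ : ℂ), ?_, ?_⟩
    · rw [norm_div, RCLike.norm_conj, Complex.norm_real, norm_norm, div_self hbn]
    · have h1 : (starRingEnd ℂ) b / (‖b‖ : ℂ) * b = (‖b‖ : ℂ) := by
        have h2 : (starRingEnd ℂ) b * b = (‖b‖ : ℂ) * (‖b‖ : ℂ) := by
          rw [mul_comm, Complex.mul_conj, Complex.normSq_eq_norm_sq]
          push_cast; ring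
        have h3 : (‖b‖ : ℂ) ≠ 0 := by exact_mod_cast hbn
        rw [div_mul_eq_mul_div, h2, mul_div_assoc, div_self h3, mul_one]
      rw [h1, Complex.ofReal_re]
      exact hbn
  let t : ℕ → ℝ := fun j => (Complex.arg ω - Complex.arg c - 2 * Real.pi * ((j + 1 : ℕ) : ℝ)) / lam
  have ht : ∀ j, lam * t j = Complex.arg ω - Complex.arg c - 2 * Real.pi * ((j + 1 : ℕ) : ℝ) := by
    intro j
    simp only [t]
    field_simp
  have hpi := Real.pi_pos
  have ht0 : ∀ j, t j ≤ 0 := by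
    intro j
    apply div_nonpos_of_nonpos_of_nonneg _ hlam.le
    have h1 := Complex.arg_le_pi ω
    have h2 := Complex.neg_pi_lt_arg c
    push_cast
    have h3 : (0 : ℝ) ≤ (j : ℝ) := Nat.cast_nonneg j
    nlinarith
  have htend : Tendsto t atTop atBot := by
    have h1 : Tendsto (fun j : ℕ => (2 * Real.pi / lam) * (j : ℝ)) atTop atTop :=
      Tendsto.const_mul_atTop (by positivity) tendsto_natCast_atTop_atTop
    have h2 : Tendsto (fun j : ℕ => -((2 * Real.pi / lam) * (j : ℝ))) atTop atBot :=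
      tendsto_neg_atTop_atBot.comp h1
    have h3 : t = fun j : ℕ => (Complex.arg ω - Complex.arg c - 2 * Real.pi) / lam +
        -((2 * Real.pi / lam) * (j : ℝ)) := by
      funext j
      simp only [t]
      push_cast
      ring
    rw [h3]
    exact tendsto_atBot_add_const_left _ _ h2
  let ε : ℕ → ℝ := fun j => Real.exp (2 * t j)
  have hε : ∀ j, 0 ≤ ε j ∧ ε j ≤ 1 := by
    intro j
    refine ⟨(Real.exp_pos _).le, ?_⟩
    rw [show (1 : ℝ) = Real.exp 0 from Real.exp_zero.symm]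
    exact Real.exp_le_exp.2 (by have := ht0 j; linarith)
  have hεt : Tendsto ε atTop (𝓝 0) := by
    refine Real.tendsto_exp_atBot.comp ?_
    exact Tendsto.const_mul_atBot (by norm_num) htend
  obtain ⟨hdiff, hunif⟩ := h_theta h_bnd h_maj ℓ lam hℓ ε hε hεt
  have hreal : ∀ y : ℝ, (y : ℂ) ∈ hstrip := by
    intro y
    simp [hstrip]
  obtain ⟨N, hN⟩ := h_zero h_rolle h_dre h_nonflat h_dconv hstrip
    (fun j z => ω * A ℓ (sv lam) (ε j) z) (fun z => ω * A ℓ (sv lam) 0 z) cnt_isOpen hreal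
    (fun j => (hdiff j).const_mul ω)
    (by
      have hu : UniformContinuous (fun z : ℂ => ω * z) := uniformContinuous_const_smul ω
      exact hu.comp_tendstoLocallyUniformlyOn hunif)
    ⟨x, hωb⟩ 0 (ℓ / 2)
  refine ⟨N, fun T0 => ?_⟩
  have h1 : ∀ᶠ j in atTop, t j < T0 := htend.eventually (eventually_lt_atBot T0)
  obtain ⟨j, hj1, hj2⟩ := (h1.and hN).exists
  refine ⟨t j, hj1, le_trans (Set.encard_le_encard ?_) hj2⟩
  intro θ hθ
  refine ⟨hθ.1, ?_⟩
  have h2 := hθ.2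
  rw [h_ga, ← mul_assoc, cnt_phase lam (t j) c ω (j + 1) hω (ht j), mul_assoc,
    Complex.re_ofReal_mul] at h2
  rcases mul_eq_zero.1 h2 with h3 | h3
  · exfalso
    have : 0 < ‖c‖ * Real.exp (t j / 2) := mul_pos (norm_pos_iff.2 hc) (Real.exp_pos _)
    exact this.ne' h3
  · exact h3

end Pool.Agent.Lib.MP_619567_an
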