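import Pool.Agent.Lib.MP_619567_an.Stm

set_option autoImplicit false

open Filter Topology Set

namespace Pool.Agent.Lib.MP_619567_an

private theorem comp_strip_convex (H : ℝ) : Convex ℝ (strip H) := by
  have h : strip H = (fun p : ℝ × ℝ => p.2) ⁻¹' Icc 0 H := rfl
  rw [h]
  exact (convex_Icc (0 : ℝ) H).linear_preimage (LinearMap.snd ℝ ℝ ℝ)

/-- small neighbourhoods in a component -/
private theorem comp_nhd {f : ℝ × ℝ → ℝ} (hf : Continuous f) (H : ℝ) (p y : ℝ × ℝ)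
    (hy : y ∈ comp f H p) : ∃ U : Set (ℝ × ℝ), IsOpen U ∧ y ∈ U ∧
      ∀ z ∈ U, z ∈ comp f H p → JoinedIn (comp f H p) y z := by
  have hyF : y ∈ strip H ∩ {x | f x ≠ 0} := connectedComponentIn_subset _ _ hy
  have hop : IsOpen {x | f x ≠ 0} := isOpen_ne_fun hf continuous_const
  obtain ⟨r, hr, hball⟩ := Metric.isOpen_iff.1 hop y hyF.2
  have hconv : Convex ℝ (strip H ∩ Metric.ball y r) :=
    (comp_strip_convex H).inter (convex_ball y r)
  have hyN : y ∈ strip H ∩ Metric.ball y r := ⟨hyF.1, Metric.mem_ball_self hr⟩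
  have hsub : strip H ∩ Metric.ball y r ⊆ comp f H p := by
    have h1 : comp f H p = connectedComponentIn (strip H ∩ {x | f x ≠ 0}) y :=
      connectedComponentIn_eq hy
    rw [h1]
    exact hconv.isPreconnected.subset_connectedComponentIn hyN
      (fun z hz => ⟨hz.1, hball hz.2⟩)
  refine ⟨Metric.ball y r, Metric.isOpen_ball, Metric.mem_ball_self hr, fun z hz hzC => ?_⟩
  have hzF : z ∈ strip H ∩ {x | f x ≠ 0} := connectedComponentIn_subset _ _ hzC
  exact ((hconv.isPathConnected ⟨y, hyN⟩).joinedIn y hyN z ⟨hzF.1, hz⟩).mono hsub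

theorem p_comp : S_comp := by
  classical
  intro f hf H p
  have hsub : comp f H p ⊆ strip H ∩ {x | f x ≠ 0} := connectedComponentIn_subset _ _
  have hpre : IsPreconnected (comp f H p) := isPreconnected_connectedComponentIn
  refine ⟨?_, ?_, ?_, hsub, ?_⟩
  · intro x hx
    choose! U hUo hUm hUj using fun y (hy : y ∈ comp f H p) => comp_nhd hf H p y hy
    by_contra hcon
    push Not at hcon
    obtain ⟨y0, hy0, hny0⟩ := hcon
    set A : Set (ℝ × ℝ) := {y | y ∈ comp f H p ∧ JoinedIn (comp f H p) x y} with hA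
    set B : Set (ℝ × ℝ) := {y | y ∈ comp f H p ∧ ¬ JoinedIn (comp f H p) x y} with hB
    have hUA : IsOpen (⋃ y ∈ A, U y) := isOpen_biUnion fun y hy => hUo y hy.1
    have hUB : IsOpen (⋃ y ∈ B, U y) := isOpen_biUnion fun y hy => hUo y hy.1
    have hcov : comp f H p ⊆ (⋃ y ∈ A, U y) ∪ (⋃ y ∈ B, U y) := by
      intro z hz
      by_cases hj : JoinedIn (comp f H p) x z
      · exact Or.inl (mem_biUnion (show z ∈ A from ⟨hz, hj⟩) (hUm z hz))
      · exact Or.inr (mem_biUnion (show z ∈ B from ⟨hz, hj⟩) (hUm z hz))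
    have hxx : JoinedIn (comp f H p) x x := JoinedIn.refl hx
    obtain ⟨z, hz, hzA, hzB⟩ := hpre _ _ hUA hUB hcov
      ⟨x, hx, mem_biUnion (show x ∈ A from ⟨hx, hxx⟩) (hUm x hx)⟩
      ⟨y0, hy0, mem_biUnion (show y0 ∈ B from ⟨hy0, hny0⟩) (hUm y0 hy0)⟩
    obtain ⟨a, ha, hza⟩ := mem_iUnion₂.1 hzA
    obtain ⟨b, hb, hzb⟩ := mem_iUnion₂.1 hzB
    exact hb.2 ((ha.2.trans (hUj a ha.1 z hza hz)).trans (hUj b hb.1 z hzb hz).symm)
  · intro x hx y hy
    by_contra hneg
    have hx0 : f x ≠ 0 := (hsub hx).2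
    have hy0 : f y ≠ 0 := (hsub hy).2
    have hlt : f x * f y < 0 := lt_of_le_of_ne (not_lt.1 hneg) (mul_ne_zero hx0 hy0)
    rcases mul_neg_iff.1 hlt with ⟨h1, h2⟩ | ⟨h1, h2⟩
    · obtain ⟨z, hz, hz0⟩ := hpre.intermediate_value hy hx hf.continuousOn ⟨h2.le, h1.le⟩
      exact (hsub hz).2 hz0
    · obtain ⟨z, hz, hz0⟩ := hpre.intermediate_value hx hy hf.continuousOn ⟨h1.le, h2.le⟩
      exact (hsub hz).2 hz0
  · intro x hx
    exact (connectedComponentIn_eq hx).symm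
  · intro hp1 hp2
    exact mem_connectedComponentIn ⟨hp1, hp2⟩

end Pool.Agent.Lib.MP_619567_an
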