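import Pool.Agent.Lib.MP_619567_an.Stm

open Filter Topology Set UpperHalfPlane

namespace Pool.Agent.Lib.MP_619567_an

private lemma cpt_continuous_fermi : Continuous (fun p : ℝ × ℝ => fermi p.1 p.2) := by
  rw [UpperHalfPlane.isEmbedding_coe.continuous_iff]
  have h : ((fun z : ℍ => (z : ℂ)) ∘ (fun p : ℝ × ℝ => fermi p.1 p.2)) =
      fun p : ℝ × ℝ => (((Real.exp p.2 * Real.sinh p.1 / Real.cosh p.1 : ℝ) : ℂ) +
        ((Real.exp p.2 / Real.cosh p.1 : ℝ) : ℂ) * Complex.I) := by
    funext p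
    apply Complex.ext
    · rw [Complex.add_re, Complex.ofReal_re, Complex.re_ofReal_mul, Complex.I_re, mul_zero, add_zero]
      rfl
    · rw [Complex.add_im, Complex.ofReal_im, Complex.im_ofReal_mul, Complex.I_im, mul_one, zero_add]
      rfl
  rw [h]
  have h1 : Continuous (fun p : ℝ × ℝ => Real.exp p.2 * Real.sinh p.1 / Real.cosh p.1) := by
    apply Continuous.div
    · exact (Real.continuous_exp.comp continuous_snd).mul (Real.continuous_sinh.comp continuous_fst)
    · exact Real.continuous_cosh.comp continuous_fst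
    · intro p
      exact (Real.cosh_pos _).ne'
  have h2 : Continuous (fun p : ℝ × ℝ => Real.exp p.2 / Real.cosh p.1) := by
    apply Continuous.div
    · exact Real.continuous_exp.comp continuous_snd
    · exact Real.continuous_cosh.comp continuous_fst
    · intro p
      exact (Real.cosh_pos _).ne'
  exact (Complex.continuous_ofReal.comp h1).add ((Complex.continuous_ofReal.comp h2).mul continuous_const)

theorem p_cpt : S_cpt := by
  intro hF ℓ e ξ B hℓ he φ hφ hφ2 D hD
  obtain ⟨f1, f2, -⟩ := hF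
  have hK : IsCompact ((fun p : ℝ × ℝ => (Quotient.mk (MulAction.orbitRel (cyl ℓ) ℍ) (fermi p.1 p.2))) ''
      (Icc (-B) B ×ˢ Icc ξ (ξ + ℓ))) := by
    apply (isCompact_Icc.prod isCompact_Icc).image
    exact continuous_quotient_mk'.comp cpt_continuous_fermi
  have hS : IsClosed {x : Quotient (MulAction.orbitRel (cyl ℓ) ℍ) | |(φ x).1| ≤ B} :=
    isClosed_le (continuous_abs.comp (continuous_fst.comp hφ)) continuous_const
  have hcl : closure D ⊆ {x : Quotient (MulAction.orbitRel (cyl ℓ) ℍ) | |(φ x).1| ≤ B} :=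
    closure_minimal hD hS
  refine hK.of_isClosed_subset isClosed_closure (hcl.trans ?_)
  intro x hx
  induction x using Quotient.inductionOn with
  | h z =>
    obtain ⟨t, θ, rfl⟩ : ∃ t θ, fermi t θ = z := ⟨_, _, f2 z⟩
    have h1 : |(φ (Quotient.mk (MulAction.orbitRel (cyl ℓ) ℍ) (fermi t θ))).1| ≤ B := hx
    rw [hφ2 t θ] at h1
    have h2 : |t| ≤ B := by
      rcases he with rfl | rfl
      · simpa using h1
      · simpa using h1
    refine ⟨(t, toIcoMod hℓ ξ θ), ⟨abs_le.1 h2, ?_⟩, ?_⟩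
    · exact Ico_subset_Icc_self (toIcoMod_mem_Ico hℓ ξ θ)
    · apply Quotient.sound
      refine ⟨⟨dil ℓ ^ (-toIcoDiv hℓ ξ θ), Subgroup.zpow_mem _ (Subgroup.mem_zpowers _) _⟩, ?_⟩
      show (dil ℓ ^ (-toIcoDiv hℓ ξ θ)) • fermi t θ = fermi t (toIcoMod hℓ ξ θ)
      rw [f1]
      congr 1
      have h3 := self_sub_toIcoDiv_zsmul hℓ ξ θ
      rw [zsmul_eq_mul] at h3
      rw [← h3]
      push_cast
      ring

end Pool.Agent.Lib.MP_619567_an
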