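import Pool.Agent.Lib.MP_619567_an.Stm
import Pool.Agent.Lib.MP_c4f91a_co.Miranda

set_option autoImplicit false

open Filter Topology Set

namespace Pool.Agent.Lib.MP_619567_an

theorem p_cross : S_cross := by
  intro a b c d P Q hQ hP
  let Φ : (Fin 2 → ℝ) → (Fin 2 → ℝ) := fun v =>
    ![(P.extend ((v 0 + 1) / 2)).1 - (Q.extend ((v 1 + 1) / 2)).1,
      (Q.extend ((v 1 + 1) / 2)).2 - (P.extend ((v 0 + 1) / 2)).2]
  have hPr : ∀ t, P.extend t ∈ range P := by
    intro t
    rw [← P.extend_range]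
    exact mem_range_self t
  have hQr : ∀ t, Q.extend t ∈ range Q := by
    intro t
    rw [← Q.extend_range]
    exact mem_range_self t
  have hc0 : Continuous (fun v : Fin 2 → ℝ => P.extend ((v 0 + 1) / 2)) :=
    P.continuous_extend.comp (by fun_prop)
  have hc1 : Continuous (fun v : Fin 2 → ℝ => Q.extend ((v 1 + 1) / 2)) :=
    Q.continuous_extend.comp (by fun_prop)
  have hΦ : Continuous Φ := by
    rw [continuous_pi_iff]
    intro i
    fin_cases i
    · exact (continuous_fst.comp hc0).sub (continuous_fst.comp hc1)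
    · exact (continuous_snd.comp hc1).sub (continuous_snd.comp hc0)
  obtain ⟨v, _, hv⟩ := Pool.Agent.Lib.MP_c4f91a_co.miranda Φ hΦ.continuousOn (by
    intro x _ i hi
    fin_cases i
    · have hi : x 0 = -1 := hi
      show (P.extend ((x 0 + 1) / 2)).1 - (Q.extend ((x 1 + 1) / 2)).1 < 0
      rw [hi]
      have h := hQ _ (hQr ((x 1 + 1) / 2))
      norm_num
      exact h.1
    · have hi : x 1 = -1 := hi
      show (Q.extend ((x 1 + 1) / 2)).2 - (P.extend ((x 0 + 1) / 2)).2 < 0
      rw [hi]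
      have h := hP _ (hPr ((x 0 + 1) / 2))
      norm_num
      exact h.1) (by
    intro x _ i hi
    fin_cases i
    · have hi : x 0 = 1 := hi
      show 0 < (P.extend ((x 0 + 1) / 2)).1 - (Q.extend ((x 1 + 1) / 2)).1
      rw [hi]
      have h := hQ _ (hQr ((x 1 + 1) / 2))
      norm_num
      exact h.2
    · have hi : x 1 = 1 := hi
      show 0 < (Q.extend ((x 1 + 1) / 2)).2 - (P.extend ((x 0 + 1) / 2)).2
      rw [hi]
      have h := hP _ (hPr ((x 0 + 1) / 2))
      norm_num
      exact h.2)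
  have h0 : (P.extend ((v 0 + 1) / 2)).1 - (Q.extend ((v 1 + 1) / 2)).1 = 0 := congrFun hv 0
  have h1 : (Q.extend ((v 1 + 1) / 2)).2 - (P.extend ((v 0 + 1) / 2)).2 = 0 := congrFun hv 1
  have he : P.extend ((v 0 + 1) / 2) = Q.extend ((v 1 + 1) / 2) :=
    Prod.ext (by linarith) (by linarith)
  exact ⟨_, hPr _, he ▸ hQr _⟩

end Pool.Agent.Lib.MP_619567_an
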