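import Pool.Agent.Lib.MP_619567_an.Stm

set_option autoImplicit false

open Filter Topology Set

namespace Pool.Agent.Lib.MP_619567_an

private theorem dconv_diff {U : Set ℂ} (hU : IsOpen U) {f : ℂ → ℂ} (hf : DifferentiableOn ℂ f U)
    (n : ℕ) : DifferentiableOn ℂ (iteratedDeriv n f) U := by
  induction n with
  | zero => rw [iteratedDeriv_zero]; exact hf
  | succ n ih => rw [iteratedDeriv_succ]; exact ih.deriv hU

theorem p_dconv : S_dconv := by
  intro U h g hU hh hg n
  induction n with
  | zero => simpa only [iteratedDeriv_zero] using hg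
  | succ n ih =>
    have h1 := ih.deriv (Eventually.of_forall fun j => dconv_diff hU (hh j) n) hU
    simp only [iteratedDeriv_succ]
    exact h1

end Pool.Agent.Lib.MP_619567_an
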