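import Pool.Agent.Lib.MP_619567_an.Stm

/-!
# Real parts of holomorphic functions on the real line (piece DRE)
-/

set_option autoImplicit false

open Filter Topology Set

namespace Pool.Agent.Lib.MP_619567_an

private theorem dre_diff {U : Set ℂ} {h : ℂ → ℂ} (hU : IsOpen U) (hh : DifferentiableOn ℂ h U)
    (n : ℕ) : DifferentiableOn ℂ (iteratedDeriv n h) U := by
  induction n with
  | zero =>
    rw [iteratedDeriv_zero]
    exact hh
  | succ n ih =>
    rw [iteratedDeriv_succ]
    exact ih.deriv hU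

private theorem dre_hasDeriv {U : Set ℂ} {h : ℂ → ℂ} (hU : IsOpen U) (hR : ∀ x : ℝ, (x : ℂ) ∈ U)
    (hh : DifferentiableOn ℂ h U) (n : ℕ) (x : ℝ) :
    HasDerivAt (fun y : ℝ => (iteratedDeriv n h y).re) (iteratedDeriv (n + 1) h x).re x := by
  have h1 : DifferentiableAt ℂ (iteratedDeriv n h) (x : ℂ) :=
    (dre_diff hU hh n).differentiableAt (hU.mem_nhds (hR x))
  rw [iteratedDeriv_succ]
  exact h1.hasDerivAt.real_of_complex

private theorem dre_iter {U : Set ℂ} {h : ℂ → ℂ} (hU : IsOpen U) (hR : ∀ x : ℝ, (x : ℂ) ∈ U)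
    (hh : DifferentiableOn ℂ h U) (n : ℕ) :
    iteratedDeriv n (fun y : ℝ => (h y).re) = fun x : ℝ => (iteratedDeriv n h x).re := by
  induction n with
  | zero => rw [iteratedDeriv_zero, iteratedDeriv_zero]
  | succ n ih =>
    rw [iteratedDeriv_succ, ih]
    funext x
    exact (dre_hasDeriv hU hR hh n x).deriv

theorem p_dre : S_dre := by
  intro U h hU hR hh
  refine ⟨contDiff_of_differentiable_iteratedDeriv fun m _ => ?_, fun n x => ?_⟩
  · rw [dre_iter hU hR hh m]
    exact fun x => (dre_hasDeriv hU hR hh m x).differentiableAt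
  · rw [dre_iter hU hR hh n]

end Pool.Agent.Lib.MP_619567_an
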