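import Pool.Agent.Lib.MP_619567_an.Stm

set_option autoImplicit false

open Filter Topology Set UpperHalfPlane

namespace Pool.Agent.Lib.MP_619567_an

private theorem eps_re (ε : ℂ) (u : ℝ) :
    (W ε (u : ℂ)).re = (1 + ε.re) * Real.cosh u + (1 - ε.re) := by
  rw [W, ← Complex.ofReal_cosh]
  simp

private theorem eps_ge (ε : ℂ) (u η : ℝ) (hη : η ≤ 1) (hε : -1 + η ≤ ε.re) :
    η * Real.cosh u ≤ (W ε (u : ℂ)).re := by
  rw [eps_re]
  have h1 := Real.one_le_cosh u
  nlinarith

private theorem eps_arg (ℓ : ℝ) (k : ℤ) : (0 : ℂ) - (k : ℂ) * (ℓ : ℂ) = ((0 - k * ℓ : ℝ) : ℂ) := by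
  push_cast
  ring

theorem p_eps : S_eps := by
  intro hbnd hmaj ℓ lam hℓ ε0 hε0
  change -1 < ε0.re at hε0
  set η : ℝ := min ((ε0.re + 1) / 2) 1 with hη
  have hη0 : 0 < η := lt_min (by linarith) one_pos
  have hη1 : η ≤ 1 := min_le_right _ _
  have hη2 : η ≤ (ε0.re + 1) / 2 := min_le_left _ _
  let U : Set ℂ := {ε : ℂ | -1 + η < ε.re}
  have hU : IsOpen U := isOpen_lt continuous_const Complex.continuous_re
  have hmem : ε0 ∈ U := by
    change -1 + η < ε0.re
    linarith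
  obtain ⟨h1, h2⟩ := hmaj ℓ hℓ 0
  have hdiff : DifferentiableOn ℂ (fun ε : ℂ => A ℓ (sv lam) ε 0) U := by
    unfold A
    refine Complex.differentiableOn_tsum_of_summable_norm
      (u := fun k : ℤ => 2 * Real.exp (Real.pi * |lam|) / Real.sqrt η *
        (2 * Real.exp (0 / 2) * Real.exp (-(ℓ / 2) * |(k : ℝ)|))) (h2.mul_left _) ?_ hU ?_
    · intro k
      rw [eps_arg]
      intro ε hε
      apply DifferentiableAt.differentiableWithinAt
      have h3 : 0 < (W ε ((0 - k * ℓ : ℝ) : ℂ)).re := by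
        refine lt_of_lt_of_le ?_ (eps_ge ε (0 - k * ℓ) η hη1 (le_of_lt hε))
        exact mul_pos hη0 (Real.cosh_pos _)
      have h4 : W ε ((0 - k * ℓ : ℝ) : ℂ) / 4 ∈ Complex.slitPlane := by
        left
        have : (W ε ((0 - k * ℓ : ℝ) : ℂ) / 4).re = (W ε ((0 - k * ℓ : ℝ) : ℂ)).re / 4 := by
          rw [show (4 : ℂ) = ((4 : ℝ) : ℂ) by norm_num, Complex.div_ofReal_re]
        rw [this]
        positivity
      unfold T
      apply DifferentiableAt.cexp
      apply DifferentiableAt.const_mul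
      have h5 : DifferentiableAt ℂ (fun y : ℂ => W y ((0 - k * ℓ : ℝ) : ℂ) / 4) ε := by
        unfold W
        fun_prop
      exact h5.clog h4
    · intro k ε hε
      rw [eps_arg]
      have h3 := eps_ge ε (0 - k * ℓ) η hη1 (le_of_lt hε)
      have hc := Real.cosh_pos (0 - k * ℓ)
      have h4 := hbnd lam (η * Real.cosh (0 - k * ℓ)) (W ε ((0 - k * ℓ : ℝ) : ℂ))
        (mul_pos hη0 hc) h3
      refine h4.trans ?_
      rw [Real.sqrt_mul hη0.le]
      have h5 := h1 0 k (by simp)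
      calc 2 * Real.exp (Real.pi * |lam|) / (Real.sqrt η * Real.sqrt (Real.cosh (0 - k * ℓ)))
          = 2 * Real.exp (Real.pi * |lam|) / Real.sqrt η * (1 / Real.sqrt (Real.cosh (0 - k * ℓ))) := by
            field_simp
        _ ≤ _ := mul_le_mul_of_nonneg_left h5 (by positivity)
  exact (hdiff.differentiableAt (hU.mem_nhds hmem)).differentiableWithinAt

end Pool.Agent.Lib.MP_619567_an
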