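import Pool.Agent.Lib.MP_619567_an.Stm

set_option autoImplicit false

open Filter Topology Set UpperHalfPlane

namespace Pool.Agent.Lib.MP_619567_an

private lemma fer_re (t θ : ℝ) : (fermi t θ).re = Real.exp θ * Real.sinh t / Real.cosh t := rfl
private lemma fer_im (t θ : ℝ) : (fermi t θ).im = Real.exp θ / Real.cosh t := rfl
private lemma fer_coe (t θ : ℝ) : ((fermi t θ : ℍ) : ℂ) =
    ⟨Real.exp θ * Real.sinh t / Real.cosh t, Real.exp θ / Real.cosh t⟩ := rfl

private lemma fer_ext (z w : ℍ) (h1 : z.re = w.re) (h2 : z.im = w.im) : z = w :=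
  UpperHalfPlane.ext (Complex.ext h1 h2)

private lemma fer_dil (ℓ t θ : ℝ) : (dil ℓ) • fermi t θ = fermi t (θ + ℓ) := by
  apply UpperHalfPlane.ext
  rw [UpperHalfPlane.specialLinearGroup_apply]
  show (((Real.exp (ℓ / 2) : ℝ) : ℂ) * (fermi t θ : ℂ) + ((0 : ℝ) : ℂ)) /
    (((0 : ℝ) : ℂ) * (fermi t θ : ℂ) + ((Real.exp (-(ℓ / 2)) : ℝ) : ℂ)) = _
  have h1 : ((Real.exp (-(ℓ / 2)) : ℝ) : ℂ) ≠ 0 := by exact_mod_cast (Real.exp_pos _).ne'
  rw [Complex.ofReal_zero, zero_mul, zero_add, add_zero, div_eq_iff h1]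
  have h2 : ((Real.exp (ℓ / 2) : ℝ) : ℂ) = ((Real.exp ℓ : ℝ) : ℂ) * ((Real.exp (-(ℓ / 2)) : ℝ) : ℂ) := by
    rw [← Complex.ofReal_mul, ← Real.exp_add]; congr 2; ring
  have h3 : ((fermi t (θ + ℓ) : ℍ) : ℂ) = ((Real.exp ℓ : ℝ) : ℂ) * (fermi t θ : ℂ) := by
    rw [fer_coe, fer_coe]
    apply Complex.ext
    · rw [Complex.re_ofReal_mul]
      show Real.exp (θ + ℓ) * Real.sinh t / Real.cosh t = Real.exp ℓ * (Real.exp θ * Real.sinh t / Real.cosh t)
      rw [Real.exp_add]; ring
    · rw [Complex.im_ofReal_mul]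
      show Real.exp (θ + ℓ) / Real.cosh t = Real.exp ℓ * (Real.exp θ / Real.cosh t)
      rw [Real.exp_add]; ring
  rw [h2, h3]; ring

private lemma fer_dilinv (ℓ t θ : ℝ) : (dil ℓ)⁻¹ • fermi t θ = fermi t (θ - ℓ) := by
  rw [inv_smul_eq_iff, fer_dil]
  congr 1
  ring

private lemma fer_norm (t θ : ℝ) : ‖((fermi t θ : ℍ) : ℂ)‖ = Real.exp θ := by
  have hc := Real.cosh_pos t
  have h1 : ‖((fermi t θ : ℍ) : ℂ)‖ ^ 2 = Real.exp θ ^ 2 := by
    rw [← Complex.normSq_eq_norm_sq, Complex.normSq_apply]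
    show Real.exp θ * Real.sinh t / Real.cosh t * (Real.exp θ * Real.sinh t / Real.cosh t) +
      Real.exp θ / Real.cosh t * (Real.exp θ / Real.cosh t) = _
    have := Real.cosh_sq t
    field_simp
    rw [this]
  have := Real.exp_pos θ
  exact (sq_eq_sq₀ (norm_nonneg _) this.le).1 h1

theorem p_fer : S_fer := by
  refine ⟨?_, ?_, ?_, ?_, ?_, ?_⟩
  · intro ℓ t θ k
    induction k using Int.induction_on generalizing θ with
    | zero => simp
    | succ n ih =>
      rw [zpow_add_one, mul_smul, fer_dil, ih]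
      congr 1
      push_cast; ring
    | pred n ih =>
      rw [zpow_sub_one, mul_smul, fer_dilinv, ih]
      congr 1
      push_cast; ring
  · intro z
    have hy : 0 < z.im := z.im_pos
    set S := z.re / z.im with hS
    have hsinh : Real.sinh (Real.arsinh S) = S := Real.sinh_arsinh S
    have hcosh : Real.cosh (Real.arsinh S) = Real.sqrt (1 + S ^ 2) := Real.cosh_arsinh S
    have hz0 : (0 : ℝ) < ‖(z : ℂ)‖ := norm_pos_iff.2 z.ne_zero
    have hexp : Real.exp (Real.log ‖(z : ℂ)‖) = ‖(z : ℂ)‖ := Real.exp_log hz0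
    have hn : ‖(z : ℂ)‖ = z.im * Real.sqrt (1 + S ^ 2) := by
      have h1 : ‖(z : ℂ)‖ ^ 2 = (z.im * Real.sqrt (1 + S ^ 2)) ^ 2 := by
        rw [← Complex.normSq_eq_norm_sq, Complex.normSq_apply, mul_pow, Real.sq_sqrt (by positivity), hS]
        show z.re * z.re + z.im * z.im = _
        field_simp
        ring
      exact (sq_eq_sq₀ (norm_nonneg _) (by positivity)).1 h1
    have hq : 0 < Real.sqrt (1 + S ^ 2) := Real.sqrt_pos.2 (by positivity)
    apply fer_ext
    · rw [fer_re, hexp, hsinh, hcosh, hn, hS]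
      rw [← hS]
      field_simp
      rw [hS]
      field_simp
    · rw [fer_im, hexp, hcosh, hn]
      field_simp
  · intro t θ
    rw [fer_re, fer_im]
    have hc := Real.cosh_pos t
    have he := Real.exp_pos θ
    have : Real.exp θ * Real.sinh t / Real.cosh t / (Real.exp θ / Real.cosh t) = Real.sinh t := by
      field_simp
    rw [this, Real.arsinh_sinh]
  · intro t θ
    rw [fer_norm, Real.log_exp]
  · intro e ρ ξ he hρ
    have hL : Real.exp (Real.log (2 / ρ)) = 2 / ρ := Real.exp_log (by positivity)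
    have hL' : Real.exp (-Real.log (2 / ρ)) = ρ / 2 := by
      rw [Real.exp_neg, hL, inv_div]
    have hch : Real.cosh (Real.log (2 / ρ)) = (1 + ρ ^ 2 / 4) / ρ := by
      rw [Real.cosh_eq, hL, hL']; field_simp; ring
    have hsh : Real.sinh (Real.log (2 / ρ)) = (1 - ρ ^ 2 / 4) / ρ := by
      rw [Real.sinh_eq, hL, hL']; field_simp; ring
    have hch' : Real.cosh (e * Real.log (2 / ρ)) = (1 + ρ ^ 2 / 4) / ρ := by
      rcases he with h | h <;> rw [h]
      · rw [one_mul, hch]
      · rw [neg_one_mul, Real.cosh_neg, hch]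
    have hsh' : Real.sinh (e * Real.log (2 / ρ)) = e * ((1 - ρ ^ 2 / 4) / ρ) := by
      rcases he with h | h <;> rw [h]
      · rw [one_mul, one_mul, hsh]
      · rw [neg_one_mul, Real.sinh_neg, hsh, neg_one_mul]
    have hp : (0 : ℝ) < 1 + ρ ^ 2 / 4 := by positivity
    apply fer_ext
    · rw [fer_re, hch', hsh']
      have : (funnelPt e ρ ξ).re = Real.exp ξ * (e * (1 - ρ ^ 2 / 4)) / (1 + ρ ^ 2 / 4) := by
        unfold funnelPt; rw [dif_pos hρ]; rfl
      rw [this]
      field_simp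
    · rw [fer_im, hch']
      have : (funnelPt e ρ ξ).im = Real.exp ξ * ρ / (1 + ρ ^ 2 / 4) := by
        unfold funnelPt; rw [dif_pos hρ]; rfl
      rw [this]
      field_simp
  · intro t θ t' θ'
    unfold sig
    have hc := Real.cosh_pos t
    have hc' := Real.cosh_pos t'
    have he := Real.exp_pos θ
    have he' := Real.exp_pos θ'
    rw [← Complex.normSq_eq_norm_sq, Complex.normSq_apply, fer_im, fer_im]
    have h1 : ((fermi t θ : ℂ) - (fermi t' θ' : ℂ)).re =
      Real.exp θ * Real.sinh t / Real.cosh t - Real.exp θ' * Real.sinh t' / Real.cosh t' := rfl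
    have h2 : ((fermi t θ : ℂ) - (fermi t' θ' : ℂ)).im =
      Real.exp θ / Real.cosh t - Real.exp θ' / Real.cosh t' := rfl
    rw [h1, h2]
    have h3 : Real.cosh (θ - θ') = (Real.exp θ ^ 2 + Real.exp θ' ^ 2) / (2 * Real.exp θ * Real.exp θ') := by
      rw [Real.cosh_eq, neg_sub, Real.exp_sub, Real.exp_sub]
      field_simp
    rw [h3]
    have h4 := Real.cosh_sq t
    have h5 := Real.cosh_sq t'
    set a := Real.exp θ
    set b := Real.exp θ'
    set C := Real.cosh t
    set C' := Real.cosh t'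
    set S := Real.sinh t
    set S' := Real.sinh t'
    have h6 : (a * S / C - b * S' / C') * (a * S / C - b * S' / C') + (a / C - b / C') * (a / C - b / C')
        = a ^ 2 + b ^ 2 - 2 * a * b * (S * S' + 1) / (C * C') := by
      have e1 : (a * S / C - b * S' / C') * (a * S / C - b * S' / C') + (a / C - b / C') * (a / C - b / C')
        = a ^ 2 * ((S ^ 2 + 1) / C ^ 2) + b ^ 2 * ((S' ^ 2 + 1) / C' ^ 2)
          - 2 * a * b * (S * S' + 1) / (C * C') := by
        field_simp
        ring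
      rw [e1, ← h4, ← h5, div_self (by positivity), div_self (by positivity)]
      ring
    rw [h6]
    field_simp
    ring

end Pool.Agent.Lib.MP_619567_an
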