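import Pool.Agent.Lib.MP_619567_an.Stm

set_option autoImplicit false

open Filter Topology Set

namespace Pool.Agent.Lib.MP_619567_an

theorem p_ga : S_ga := by
  intro ℓ s t θ
  unfold G A
  rw [← tsum_mul_left]
  apply tsum_congr
  intro k
  unfold T
  rw [← Complex.exp_add]
  congr 1
  set u : ℝ := θ - k * ℓ with hu
  have hW : W ((Real.exp (2 * t) : ℝ) : ℂ) ((θ : ℂ) - k * ℓ) =
      (((1 + Real.exp (2 * t)) * Real.cosh u + (1 - Real.exp (2 * t)) : ℝ) : ℂ) := by
    unfold W
    have : (θ : ℂ) - k * ℓ = (u : ℂ) := by rw [hu]; push_cast; ring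
    rw [this]
    push_cast
    ring
  rw [hW]
  have hc := Real.one_le_cosh u
  have he := Real.exp_pos (2 * t)
  have hpos : 0 < (1 + Real.exp (2 * t)) * Real.cosh u + (1 - Real.exp (2 * t)) := by nlinarith
  set w : ℝ := (1 + Real.exp (2 * t)) * Real.cosh u + (1 - Real.exp (2 * t)) with hw
  have h4 : ((w : ℂ) / 4) = ((w / 4 : ℝ) : ℂ) := by push_cast; ring
  rw [h4, ← Complex.ofReal_log (by positivity)]
  have hD : Dk t u / 2 = Real.exp (-t) * (w / 4) := by
    unfold Dk
    rw [hw, Real.cosh_eq t, Real.sinh_eq t]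
    have h5 : Real.exp (-t) * Real.exp (2 * t) = Real.exp t := by
      rw [← Real.exp_add]; congr 1; ring
    have h6 : Real.exp (-t) * ((1 + Real.exp (2 * t)) * Real.cosh u + (1 - Real.exp (2 * t))) =
        (Real.exp (-t) + Real.exp t) * Real.cosh u + (Real.exp (-t) - Real.exp t) := by
      rw [← h5]; ring
    linear_combination (-(1:ℝ)/4) * h6
  rw [hD, Real.log_mul (Real.exp_pos _).ne' (by positivity), Real.log_exp]
  push_cast
  ring

end Pool.Agent.Lib.MP_619567_an
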