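import Pool.Agent.Lib.MP_619567_an.Stm

set_option autoImplicit false

open Filter Topology Set UpperHalfPlane

namespace Pool.Agent.Lib.MP_619567_an

private theorem gcont_exp (t : ℝ) : Real.cosh t - |Real.sinh t| = Real.exp (-|t|) := by
  rcases le_total 0 t with h | h
  · rw [abs_of_nonneg (Real.sinh_nonneg_iff.2 h), abs_of_nonneg h, Real.cosh_sub_sinh]
  · rw [abs_of_nonpos (Real.sinh_nonpos_iff.2 h), abs_of_nonpos h, sub_neg_eq_add, neg_neg,
      Real.cosh_add_sinh]

private theorem gcont_Dk (t u : ℝ) : Real.exp (-|t|) * Real.cosh u ≤ Dk t u := by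
  have h1 := Real.one_le_cosh u
  have h2 := abs_nonneg (Real.sinh t)
  have h3 := le_abs_self (Real.sinh t)
  have h4 := mul_le_mul_of_nonneg_left h1 h2
  rw [← gcont_exp, Dk]
  nlinarith

private theorem gcont_Dk_pos (t u : ℝ) : 0 < Dk t u :=
  lt_of_lt_of_le (mul_pos (Real.exp_pos _) (Real.cosh_pos _)) (gcont_Dk t u)

private theorem gcont_norm (lam x : ℝ) (hx : 0 < x) :
    ‖Complex.exp (-sv lam * ((Real.log x : ℝ) : ℂ))‖ = 1 / Real.sqrt x := by
  rw [Complex.norm_exp]
  have h1 : (-sv lam * ((Real.log x : ℝ) : ℂ)).re = -(Real.log x / 2) := by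
    simp [sv]
    ring
  rw [h1, Real.exp_neg, one_div]
  congr 1
  rw [Real.sqrt_eq_rpow, Real.rpow_def_of_pos hx]
  congr 1
  ring

theorem p_gcont : S_gcont := by
  intro hmaj ℓ lam hℓ
  rw [continuous_iff_continuousAt]
  rintro ⟨t0, θ0⟩
  -- a box around the point
  set B : ℝ := max |t0| |θ0| + 1 with hB
  let s : Set (ℝ × ℝ) := {p | |p.1| < B ∧ |p.2| < B}
  have hs : IsOpen s :=
    (isOpen_lt (continuous_fst.abs) continuous_const).inter
      (isOpen_lt (continuous_snd.abs) continuous_const)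
  have hmem : ((t0, θ0) : ℝ × ℝ) ∈ s := by
    constructor
    · exact lt_of_le_of_lt (le_max_left _ _) (lt_add_one _)
    · exact lt_of_le_of_lt (le_max_right _ _) (lt_add_one _)
  obtain ⟨h1, h2⟩ := hmaj ℓ hℓ B
  have hcont : ContinuousOn (fun p : ℝ × ℝ => G ℓ (sv lam) p.1 p.2) s := by
    unfold G
    refine continuousOn_tsum (u := fun k : ℤ => Real.sqrt 2 * Real.exp (B / 2) *
      (2 * Real.exp (B / 2) * Real.exp (-(ℓ / 2) * |(k : ℝ)|))) ?_ (h2.mul_left _) ?_
    · intro k
      have hc : ContinuousOn (fun p : ℝ × ℝ => Real.log (Dk p.1 (p.2 - k * ℓ) / 2)) s := by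
        apply Continuous.continuousOn
        apply Continuous.log
        · unfold Dk
          fun_prop
        · intro p
          have := gcont_Dk_pos p.1 (p.2 - k * ℓ)
          positivity
      have hc' : ContinuousOn (fun p : ℝ × ℝ =>
          ((Real.log (Dk p.1 (p.2 - k * ℓ) / 2) : ℝ) : ℂ)) s :=
        Complex.continuous_ofReal.comp_continuousOn hc
      exact Complex.continuous_exp.comp_continuousOn (continuousOn_const.mul hc')
    · rintro k ⟨t, θ⟩ ⟨ht, hθ⟩
      change |t| < B at ht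
      change |θ| < B at hθ
      have hD := gcont_Dk t (θ - k * ℓ)
      have hDp := gcont_Dk_pos t (θ - k * ℓ)
      have hc := Real.cosh_pos (θ - k * ℓ)
      change ‖Complex.exp (-sv lam * ((Real.log (Dk t (θ - k * ℓ) / 2) : ℝ) : ℂ))‖ ≤ _
      rw [gcont_norm lam _ (by positivity)]
      have h3 : 1 / Real.sqrt (Dk t (θ - k * ℓ) / 2) ≤
          Real.sqrt 2 * Real.exp (B / 2) * (1 / Real.sqrt (Real.cosh (θ - k * ℓ))) := by
        have h4 : Real.exp (-B) * Real.cosh (θ - k * ℓ) / 2 ≤ Dk t (θ - k * ℓ) / 2 := by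
          have : Real.exp (-B) ≤ Real.exp (-|t|) := Real.exp_le_exp.2 (by linarith)
          have := mul_le_mul_of_nonneg_right this hc.le
          linarith
        have h5 : 0 < Real.exp (-B) * Real.cosh (θ - k * ℓ) / 2 := by positivity
        have h6 := one_div_le_one_div_of_le (Real.sqrt_pos.2 h5) (Real.sqrt_le_sqrt h4)
        refine h6.trans (le_of_eq ?_)
        have h7 : Real.sqrt (Real.exp (-B) * Real.cosh (θ - k * ℓ) / 2) =
            Real.exp (-(B / 2)) * Real.sqrt (Real.cosh (θ - k * ℓ)) / Real.sqrt 2 := by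
          rw [Real.sqrt_div (by positivity), Real.sqrt_mul (Real.exp_pos _).le]
          congr 2
          rw [Real.sqrt_eq_iff_mul_self_eq (Real.exp_pos _).le (Real.exp_pos _).le, ← Real.exp_add]
          congr 1
          ring
        rw [h7, Real.exp_neg]
        field_simp
      exact h3.trans (mul_le_mul_of_nonneg_left (h1 θ k hθ.le) (by positivity))
  exact hcont.continuousAt (hs.mem_nhds hmem)

end Pool.Agent.Lib.MP_619567_an
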