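import Pool.Agent.Lib.MP_619567_an.Stm

/-! GNZ: the function `G` is not zero at `(t, 0)` for large `t`. -/

set_option autoImplicit false

open Filter Topology Set UpperHalfPlane

namespace Pool.Agent.Lib.MP_619567_an

private theorem gnz_norm (lam x : ℝ) : ‖Complex.exp (-sv lam * ((x : ℝ) : ℂ))‖ =
    Real.exp (-(1 / 2 * x)) := by
  rw [Complex.norm_exp]
  congr 1
  simp [sv]

/-- the bound for the terms with `k ≠ 0` -/
private theorem gnz_term {ℓ : ℝ} (hℓ : 0 < ℓ) (lam t : ℝ) {k : ℤ} (hk : k ≠ 0) :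
    ‖Complex.exp (-sv lam * ((Real.log (Dk t (0 - k * ℓ) / 2) : ℝ) : ℂ))‖ ≤
      Real.exp (-(t / 2)) * (2 / Real.sqrt (1 - 1 / Real.cosh ℓ)) *
        (1 / Real.sqrt (Real.cosh (0 - k * ℓ))) := by
  obtain ⟨C, hC⟩ : ∃ C : ℝ, C = Real.cosh (0 - k * ℓ) := ⟨_, rfl⟩
  have h1 : Real.cosh ℓ ≤ C := by
    rw [hC, Real.cosh_le_cosh, abs_of_pos hℓ, zero_sub, abs_neg, abs_mul, abs_of_pos hℓ]
    have : (1 : ℝ) ≤ |(k : ℝ)| := by
      have h := Int.one_le_abs hk
      exact_mod_cast h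
    nlinarith
  have h2 : 1 < Real.cosh ℓ := Real.one_lt_cosh.2 hℓ.ne'
  obtain ⟨c, hc⟩ : ∃ c : ℝ, c = 1 - 1 / Real.cosh ℓ := ⟨_, rfl⟩
  have hc0 : 0 < c := by
    rw [hc, sub_pos, div_lt_one (by linarith)]
    exact h2
  have h3 : c * C ≤ C - 1 := by
    have h4 : 1 ≤ C / Real.cosh ℓ := by rwa [le_div_iff₀ (by linarith), one_mul]
    have h5 : c * C = C - C / Real.cosh ℓ := by rw [hc]; ring
    linarith
  have hC0 : 0 < C := by linarith
  have h6 : Real.exp t * (c * C) / 4 ≤ Dk t (0 - k * ℓ) / 2 := by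
    have e1 : Dk t (0 - k * ℓ) = Real.cosh t * (C - 1) + Real.exp (-t) := by
      rw [Dk, ← hC, ← Real.cosh_sub_sinh]; ring
    have e2 : Real.exp t ≤ 2 * Real.cosh t := by
      rw [Real.cosh_eq]; linarith [Real.exp_pos (-t)]
    have e3 : Real.exp t * (c * C) ≤ 2 * Real.cosh t * (C - 1) :=
      mul_le_mul e2 h3 (by positivity) (by linarith [Real.cosh_pos t])
    rw [e1]
    linarith [Real.exp_pos (-t)]
  have h7 : 0 < Real.exp t * (c * C) / 4 := by positivity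
  rw [gnz_norm, ← hC, ← hc]
  have h8 : Real.log (Real.exp t * (c * C) / 4) ≤ Real.log (Dk t (0 - k * ℓ) / 2) :=
    Real.log_le_log h7 h6
  have h9 : Real.log (Real.exp t * (c * C) / 4) = t + Real.log c + Real.log C - Real.log 4 := by
    rw [Real.log_div (by positivity) (by norm_num), Real.log_mul (Real.exp_pos t).ne'
      (by positivity), Real.log_exp, Real.log_mul hc0.ne' hC0.ne']
    ring
  have h10 : Real.exp (-(t / 2)) * (2 / Real.sqrt c) * (1 / Real.sqrt C) =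
      Real.exp (-(1 / 2 * (t + Real.log c + Real.log C - Real.log 4))) := by
    have e1 : Real.sqrt c = Real.exp (Real.log c / 2) := by
      rw [Real.exp_half, Real.exp_log hc0]
    have e2 : Real.sqrt C = Real.exp (Real.log C / 2) := by
      rw [Real.exp_half, Real.exp_log hC0]
    have e3 : (2 : ℝ) = Real.exp (Real.log 4 / 2) := by
      rw [Real.exp_half, Real.exp_log (by norm_num), show (4 : ℝ) = 2 ^ 2 by norm_num,
        Real.sqrt_sq (by norm_num)]
    have e4 : (2 : ℝ) / Real.exp (Real.log c / 2) = Real.exp (Real.log 4 / 2 - Real.log c / 2) := by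
      rw [Real.exp_sub, ← e3]
    have e5 : 1 / Real.exp (Real.log C / 2) = Real.exp (-(Real.log C / 2)) := by
      rw [one_div, Real.exp_neg]
    rw [e1, e2, e4, e5, ← Real.exp_add, ← Real.exp_add]
    congr 1
    ring
  rw [h10, Real.exp_le_exp]
  rw [h9] at h8
  linarith

/-- the term with `k = 0` -/
private theorem gnz_zero (ℓ lam t : ℝ) :
    ‖Complex.exp (-sv lam * ((Real.log (Dk t (0 - (0 : ℤ) * ℓ) / 2) : ℝ) : ℂ))‖ =
      Real.exp (t / 2) * Real.exp (Real.log 2 / 2) := by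
  rw [gnz_norm]
  have e1 : Dk t (0 - (0 : ℤ) * ℓ) = Real.exp (-t) := by
    rw [Dk, ← Real.cosh_sub_sinh]
    simp
  rw [e1, Real.log_div (Real.exp_pos _).ne' (by norm_num), Real.log_exp, ← Real.exp_add]
  congr 1
  ring

theorem p_gnz : S_gnz := by
  intro hmaj ℓ lam hℓ
  obtain ⟨h1, h2⟩ := hmaj ℓ hℓ 0
  obtain ⟨M, hM⟩ : ∃ M : ℤ → ℝ, M = fun k : ℤ =>
    2 * Real.exp (0 / 2) * Real.exp (-(ℓ / 2) * |(k : ℝ)|) := ⟨_, rfl⟩
  rw [← hM] at h2
  have h1' : ∀ k : ℤ, 1 / Real.sqrt (Real.cosh (0 - k * ℓ)) ≤ M k := by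
    intro k
    rw [hM]
    exact h1 0 k (by simp)
  obtain ⟨D, hD⟩ : ∃ D : ℝ, D = 2 / Real.sqrt (1 - 1 / Real.cosh ℓ) := ⟨_, rfl⟩
  have hD0 : 0 ≤ D := by rw [hD]; positivity
  have hM0 : ∀ k, 0 ≤ M k := by
    intro k
    rw [hM]
    positivity
  obtain ⟨S, hS⟩ : ∃ S : ℝ, S = D * ∑' k, M k := ⟨_, rfl⟩
  have hS0 : 0 ≤ S := by
    rw [hS]
    exact mul_nonneg hD0 (tsum_nonneg hM0)
  refine ⟨S, fun hG => ?_⟩
  obtain ⟨f, hf⟩ : ∃ f : ℤ → ℂ, f = fun k : ℤ =>
    Complex.exp (-sv lam * ((Real.log (Dk S (0 - k * ℓ) / 2) : ℝ) : ℂ)) := ⟨_, rfl⟩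
  have hb : ∀ k : ℤ, k ≠ 0 → ‖f k‖ ≤ Real.exp (-(S / 2)) * D * M k := by
    intro k hk
    rw [hf, hD]
    refine (gnz_term hℓ lam S hk).trans ?_
    exact mul_le_mul_of_nonneg_left (h1' k) (by positivity)
  have hsum : HasSum (fun k => Real.exp (-(S / 2)) * D * M k) (Real.exp (-(S / 2)) * S) := by
    have := h2.hasSum.mul_left (Real.exp (-(S / 2)) * D)
    rw [mul_assoc, ← hS] at this
    exact this
  have hfs : Summable f :=
    Summable.of_norm_bounded_eventually hsum.summable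
      ((Filter.eventually_cofinite_ne (0 : ℤ)).mono hb)
  have h3 : G ℓ (sv lam) S 0 = f 0 + ∑' k, ite (k = 0) 0 (f k) := by
    rw [← hfs.tsum_eq_add_tsum_ite 0, hf]
    rfl
  have h4 : ‖∑' k, ite (k = 0) 0 (f k)‖ ≤ Real.exp (-(S / 2)) * S := by
    refine tsum_of_norm_bounded hsum fun k => ?_
    split_ifs with h
    · rw [norm_zero]
      exact mul_nonneg (by positivity) (hM0 k)
    · exact hb k h
  have h5 : ‖f 0‖ = Real.exp (S / 2) * Real.exp (Real.log 2 / 2) := by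
    rw [hf]
    exact gnz_zero ℓ lam S
  rw [hG] at h3
  have h6 : ‖f 0‖ ≤ Real.exp (-(S / 2)) * S := by
    have : f 0 = -∑' k, ite (k = 0) 0 (f k) := by linear_combination -h3
    rw [this, norm_neg]
    exact h4
  rw [h5] at h6
  have h7 : 1 ≤ Real.exp (Real.log 2 / 2) := Real.one_le_exp (by positivity)
  have h8 : Real.exp (S / 2) ≤ Real.exp (-(S / 2)) * S := by
    nlinarith [Real.exp_pos (S / 2)]
  have h9 : Real.exp S ≤ S := by
    have e1 : Real.exp (S / 2) * Real.exp (S / 2) = Real.exp S := by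
      rw [← Real.exp_add]; congr 1; ring
    have e2 : Real.exp (S / 2) * Real.exp (-(S / 2)) = 1 := by
      rw [← Real.exp_add, add_neg_cancel, Real.exp_zero]
    calc Real.exp S = Real.exp (S / 2) * Real.exp (S / 2) := e1.symm
      _ ≤ Real.exp (S / 2) * (Real.exp (-(S / 2)) * S) :=
        mul_le_mul_of_nonneg_left h8 (Real.exp_pos _).le
      _ = S := by rw [← mul_assoc, e2, one_mul]
  linarith [Real.add_one_le_exp S]

end Pool.Agent.Lib.MP_619567_an
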