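import Pool.Agent.Lib.MP_619567_an.Stm

/-!
# GRN
-/

set_option autoImplicit false

open Filter Topology Set UpperHalfPlane MeasureTheory

namespace Pool.Agent.Lib.MP_619567_an

/-- `ρ σ` as a function of `ρ` -/
private noncomputable def grn_R (e t u ρ : ℝ) : ℝ :=
  ((1 + ρ ^ 2 / 4) * Real.cosh t * Real.cosh u - e * (1 - ρ ^ 2 / 4) * Real.sinh t - ρ) / 2

private theorem grn_sv_re (lam : ℝ) : (sv lam).re = 1 / 2 := by
  simp [sv]

private theorem grn_sigma (hfer : S_fer) (e t θ ξ ρ : ℝ) (he : e = 1 ∨ e = -1) (hρ : 0 < ρ) :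
    ρ * sig (fermi t θ) (funnelPt e ρ ξ) = grn_R e t (θ - ξ) ρ := by
  obtain ⟨_, _, _, _, h5, h6⟩ := hfer
  rw [h5 e ρ ξ he hρ, h6]
  have h1 : Real.cosh (e * Real.log (2 / ρ)) = (2 / ρ + (2 / ρ)⁻¹) / 2 := by
    rcases he with rfl | rfl
    · rw [one_mul, Real.cosh_log (by positivity)]
    · rw [neg_one_mul, Real.cosh_neg, Real.cosh_log (by positivity)]
  have h2 : Real.sinh (e * Real.log (2 / ρ)) = e * ((2 / ρ - (2 / ρ)⁻¹) / 2) := by
    rcases he with rfl | rfl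
    · rw [one_mul, Real.sinh_log (by positivity), one_mul]
    · rw [neg_one_mul, Real.sinh_neg, Real.sinh_log (by positivity)]
      ring
  rw [h1, h2]
  unfold grn_R
  field_simp
  ring

private theorem grn_sig_nonneg (z w : ℍ) : 0 ≤ sig z w := by
  unfold sig
  have h1 := z.im_pos
  have h2 := w.im_pos
  positivity

private theorem grn_eq (hfer : S_fer) (s : ℂ) (e t θ ξ ρ : ℝ) (he : e = 1 ∨ e = -1)
    (hρ : 0 < ρ) :
    (ρ : ℂ) ^ (-s) * green s (fermi t θ) (funnelPt e ρ ξ) =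
      (1 / (4 * (Real.pi : ℂ))) * ∫ x in (0 : ℝ)..1, ((x * (1 - x) : ℝ) : ℂ) ^ (s - 1) *
        ((ρ * x + grn_R e t (θ - ξ) ρ : ℝ) : ℂ) ^ (-s) := by
  unfold green
  rw [← mul_assoc, mul_comm ((ρ : ℂ) ^ (-s)), mul_assoc, ← intervalIntegral.integral_const_mul]
  congr 1
  apply intervalIntegral.integral_congr
  intro x hx
  rw [uIcc_of_le zero_le_one] at hx
  have h1 : ρ * x + grn_R e t (θ - ξ) ρ = ρ * (x + sig (fermi t θ) (funnelPt e ρ ξ)) := by
    rw [← grn_sigma hfer e t θ ξ ρ he hρ]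
    ring
  have h2 : 0 ≤ x + sig (fermi t θ) (funnelPt e ρ ξ) :=
    add_nonneg hx.1 (grn_sig_nonneg _ _)
  have h3 : ((ρ * (x + sig (fermi t θ) (funnelPt e ρ ξ)) : ℝ) : ℂ) ^ (-s) =
      (ρ : ℂ) ^ (-s) * ((x + sig (fermi t θ) (funnelPt e ρ ξ) : ℝ) : ℂ) ^ (-s) := by
    rw [Complex.ofReal_mul, Complex.mul_cpow_ofReal_nonneg hρ.le h2]
  simp only []
  rw [h1, h3]
  ring

private theorem grn_cs (t : ℝ) : Real.exp (-|t|) ≤ Real.cosh t - |Real.sinh t| := by
  rcases le_total 0 t with h | h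
  · rw [abs_of_nonneg h, abs_of_nonneg (Real.sinh_nonneg_iff.2 h), Real.cosh_sub_sinh]
  · rw [abs_of_nonpos h, abs_of_nonpos (Real.sinh_nonpos_iff.2 h), neg_neg, sub_neg_eq_add,
      Real.cosh_add_sinh]

private theorem grn_lower (e t u ρ : ℝ) (he : e = 1 ∨ e = -1) (hρ : 0 < ρ)
    (hρ1 : ρ < min 1 (Real.exp (-|t|) / 2)) :
    Real.exp (-|t|) / 4 * Real.cosh u ≤ grn_R e t u ρ := by
  have h1 : ρ < 1 := hρ1.trans_le (min_le_left _ _)
  have h2 : ρ < Real.exp (-|t|) / 2 := hρ1.trans_le (min_le_right _ _)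
  have hu := Real.one_le_cosh u
  have ht := Real.one_le_cosh t
  have hcs := grn_cs t
  have h3 : 0 < Real.exp (-|t|) := Real.exp_pos _
  have h4 : e * (1 - ρ ^ 2 / 4) * Real.sinh t ≤ |Real.sinh t| := by
    have h5 : e * (1 - ρ ^ 2 / 4) * Real.sinh t ≤ |e * (1 - ρ ^ 2 / 4) * Real.sinh t| :=
      le_abs_self _
    refine h5.trans ?_
    rw [abs_mul]
    have h6 : |e * (1 - ρ ^ 2 / 4)| ≤ 1 := by
      rw [abs_mul]
      have : |e| = 1 := by
        rcases he with rfl | rfl <;> simp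
      rw [this, one_mul, abs_le]
      constructor <;> nlinarith
    calc |e * (1 - ρ ^ 2 / 4)| * |Real.sinh t| ≤ 1 * |Real.sinh t| :=
          mul_le_mul_of_nonneg_right h6 (abs_nonneg _)
      _ = |Real.sinh t| := one_mul _
  have h7 : Real.cosh t * Real.cosh u ≤ (1 + ρ ^ 2 / 4) * Real.cosh t * Real.cosh u := by
    have : 0 ≤ Real.cosh t * Real.cosh u := by positivity
    nlinarith [sq_nonneg ρ]
  have h8 : |Real.sinh t| ≤ |Real.sinh t| * Real.cosh u := by
    nlinarith [abs_nonneg (Real.sinh t)]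
  have h9 : Real.exp (-|t|) * Real.cosh u ≤ (Real.cosh t - |Real.sinh t|) * Real.cosh u :=
    mul_le_mul_of_nonneg_right hcs (by linarith)
  have h10 : Real.exp (-|t|) ≤ Real.exp (-|t|) * Real.cosh u := by nlinarith
  unfold grn_R
  nlinarith

private theorem grn_int (lam : ℝ) : IntervalIntegrable
    (fun x : ℝ => ((x * (1 - x) : ℝ) : ℂ) ^ (sv lam - 1)) volume 0 1 := by
  have hs : 0 < (sv lam).re := by
    rw [grn_sv_re]
    norm_num
  have h1 := Complex.betaIntegral_convergent hs hs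
  refine h1.congr ?_
  intro x hx
  rw [uIoc_of_le zero_le_one] at hx
  simp only []
  rw [Complex.ofReal_mul, Complex.mul_cpow_ofReal_nonneg hx.1.le (by linarith [hx.2])]
  push_cast
  ring

private theorem grn_beta (lam : ℝ) :
    (∫ x in (0 : ℝ)..1, ((x * (1 - x) : ℝ) : ℂ) ^ (sv lam - 1)) =
      Complex.betaIntegral (sv lam) (sv lam) := by
  unfold Complex.betaIntegral
  apply intervalIntegral.integral_congr
  intro x hx
  rw [uIcc_of_le zero_le_one] at hx
  simp only []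
  rw [Complex.ofReal_mul, Complex.mul_cpow_ofReal_nonneg hx.1 (by linarith [hx.2])]
  push_cast
  ring

private theorem grn_norm (lam c y : ℝ) (hc : 0 < c) (hy : c ≤ y) :
    ‖(y : ℂ) ^ (-sv lam)‖ ≤ c ^ (-(1 / 2 : ℝ)) := by
  rw [Complex.norm_cpow_eq_rpow_re_of_pos (hc.trans_le hy), Complex.neg_re, grn_sv_re]
  exact Real.rpow_le_rpow_of_nonpos hc hy (by norm_num)

private theorem grn_meas (lam a b : ℝ) : Measurable (fun x : ℝ =>
    ((x * (1 - x) : ℝ) : ℂ) ^ (sv lam - 1) * ((a * x + b : ℝ) : ℂ) ^ (-sv lam)) := by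
  apply Measurable.mul
  · exact (Complex.measurable_ofReal.comp (by fun_prop)).pow_const _
  · exact (Complex.measurable_ofReal.comp (by fun_prop)).pow_const _

theorem p_grn : S_grn := by
  intro hfer lam e t he
  refine ⟨?_, ?_⟩
  · intro θ ξ
    set u := θ - ξ with hu
    set c : ℝ := Real.exp (-|t|) / 4 * Real.cosh u with hc
    have hc0 : 0 < c := by
      have := Real.cosh_pos u
      positivity
    have hδ : 0 < min 1 (Real.exp (-|t|) / 2) := by positivity
    have hnear : ∀ᶠ ρ : ℝ in 𝓝[>] 0, 0 < ρ ∧ ρ < min 1 (Real.exp (-|t|) / 2) := by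
      filter_upwards [Ioo_mem_nhdsGT hδ] with ρ hρ using ⟨hρ.1, hρ.2⟩
    have hR0 : grn_R e t u 0 = Dk (e * t) u / 2 := by
      unfold grn_R Dk
      rcases he with rfl | rfl
      · simp
      · simp
    have hRcont : Continuous (fun ρ : ℝ => grn_R e t u ρ) := by
      unfold grn_R
      fun_prop
    have hclose : c ≤ grn_R e t u 0 := by
      have h1 : Tendsto (fun ρ : ℝ => grn_R e t u ρ) (𝓝[>] 0) (𝓝 (grn_R e t u 0)) :=
        (hRcont.tendsto 0).mono_left nhdsWithin_le_nhds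
      refine ge_of_tendsto h1 ?_
      filter_upwards [hnear] with ρ hρ
      exact grn_lower e t u ρ he hρ.1 hρ.2
    have hlim : Tendsto (fun ρ : ℝ => ∫ x in (0 : ℝ)..1, ((x * (1 - x) : ℝ) : ℂ) ^ (sv lam - 1) *
        ((ρ * x + grn_R e t u ρ : ℝ) : ℂ) ^ (-sv lam)) (𝓝[>] 0)
        (𝓝 (∫ x in (0 : ℝ)..1, ((x * (1 - x) : ℝ) : ℂ) ^ (sv lam - 1) *
        ((grn_R e t u 0 : ℝ) : ℂ) ^ (-sv lam))) := by
      apply intervalIntegral.tendsto_integral_filter_of_dominated_convergence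
        (fun x => ‖((x * (1 - x) : ℝ) : ℂ) ^ (sv lam - 1)‖ * c ^ (-(1 / 2 : ℝ)))
      · exact Eventually.of_forall fun ρ => (grn_meas lam ρ _).aestronglyMeasurable
      · filter_upwards [hnear] with ρ hρ
        refine Eventually.of_forall fun x hx => ?_
        rw [uIoc_of_le zero_le_one] at hx
        rw [norm_mul]
        refine mul_le_mul_of_nonneg_left ?_ (norm_nonneg _)
        apply grn_norm lam c _ hc0
        have h1 := grn_lower e t u ρ he hρ.1 hρ.2
        have h2 : 0 ≤ ρ * x := mul_nonneg hρ.1.le hx.1.le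
        linarith
      · exact (grn_int lam).norm.mul_const _
      · refine Eventually.of_forall fun x hx => ?_
        have h1 : Tendsto (fun ρ : ℝ => ρ * x + grn_R e t u ρ) (𝓝[>] 0)
            (𝓝 (grn_R e t u 0)) := by
          have h2 : Continuous (fun ρ : ℝ => ρ * x + grn_R e t u ρ) := by fun_prop
          have h3 := (h2.tendsto 0).mono_left (nhdsWithin_le_nhds (s := Ioi (0 : ℝ)))
          simpa using h3
        have h4 : ((grn_R e t u 0 : ℝ) : ℂ) ∈ Complex.slitPlane := by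
          rw [Complex.ofReal_mem_slitPlane]
          exact hc0.trans_le hclose
        have h5 : Tendsto (fun ρ : ℝ => ((ρ * x + grn_R e t u ρ : ℝ) : ℂ)) (𝓝[>] 0)
            (𝓝 ((grn_R e t u 0 : ℝ) : ℂ)) := (Complex.continuous_ofReal.tendsto _).comp h1
        exact ((continuousAt_cpow_const h4).tendsto.comp h5).const_mul _
    have hfin := hlim.const_mul (1 / (4 * (Real.pi : ℂ)))
    rw [intervalIntegral.integral_mul_const, grn_beta] at hfin
    have hval : 1 / (4 * (Real.pi : ℂ)) * (Complex.betaIntegral (sv lam) (sv lam) *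
        ((grn_R e t u 0 : ℝ) : ℂ) ^ (-sv lam)) =
        Complex.betaIntegral (sv lam) (sv lam) / (4 * (Real.pi : ℂ)) *
        Complex.exp (-sv lam * ((Real.log (Dk (e * t) u / 2) : ℝ) : ℂ)) := by
      have hp : 0 < grn_R e t u 0 := hc0.trans_le hclose
      rw [Complex.cpow_def_of_ne_zero (by exact_mod_cast hp.ne'), ← Complex.ofReal_log hp.le, hR0]
      ring_nf
    rw [hval] at hfin
    refine hfin.congr' ?_
    filter_upwards [hnear] with ρ hρ
    exact (grn_eq hfer (sv lam) e t θ ξ ρ he hρ.1).symm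
  · set I : ℝ := ∫ x in (0 : ℝ)..1, ‖((x * (1 - x) : ℝ) : ℂ) ^ (sv lam - 1)‖ with hI
    refine ⟨‖(1 / (4 * (Real.pi : ℂ)))‖ * (I * (Real.exp (-|t|) / 4) ^ (-(1 / 2 : ℝ))),
      min 1 (Real.exp (-|t|) / 2), by positivity, ?_⟩
    intro θ ξ ρ hρ hρ1
    rw [grn_eq hfer (sv lam) e t θ ξ ρ he hρ, norm_mul]
    set u := θ - ξ with hu
    have hcu := Real.cosh_pos u
    set c : ℝ := Real.exp (-|t|) / 4 * Real.cosh u with hc
    have hc0 : 0 < c := by positivity
    have h1 : ‖∫ x in (0 : ℝ)..1, ((x * (1 - x) : ℝ) : ℂ) ^ (sv lam - 1) *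
        ((ρ * x + grn_R e t u ρ : ℝ) : ℂ) ^ (-sv lam)‖ ≤
        ∫ x in (0 : ℝ)..1, ‖((x * (1 - x) : ℝ) : ℂ) ^ (sv lam - 1)‖ * c ^ (-(1 / 2 : ℝ)) := by
      apply intervalIntegral.norm_integral_le_of_norm_le zero_le_one
      · refine Eventually.of_forall fun x hx => ?_
        rw [norm_mul]
        refine mul_le_mul_of_nonneg_left ?_ (norm_nonneg _)
        apply grn_norm lam c _ hc0
        have h1 := grn_lower e t u ρ he hρ hρ1
        have h2 : 0 ≤ ρ * x := mul_nonneg hρ.le hx.1.le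
        linarith
      · exact (grn_int lam).norm.mul_const _
    rw [intervalIntegral.integral_mul_const, ← hI] at h1
    have h2 : c ^ (-(1 / 2 : ℝ)) = (Real.exp (-|t|) / 4) ^ (-(1 / 2 : ℝ)) / Real.sqrt (Real.cosh u) := by
      rw [hc, Real.mul_rpow (by positivity) hcu.le, Real.rpow_neg hcu.le (1 / 2), Real.sqrt_eq_rpow]
      rfl
    rw [h2] at h1
    calc ‖(1 / (4 * (Real.pi : ℂ)))‖ * ‖∫ x in (0 : ℝ)..1, ((x * (1 - x) : ℝ) : ℂ) ^ (sv lam - 1) *
        ((ρ * x + grn_R e t u ρ : ℝ) : ℂ) ^ (-sv lam)‖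
        ≤ ‖(1 / (4 * (Real.pi : ℂ)))‖ * (I * ((Real.exp (-|t|) / 4) ^ (-(1 / 2 : ℝ)) /
          Real.sqrt (Real.cosh u))) := mul_le_mul_of_nonneg_left h1 (norm_nonneg _)
      _ = _ := by ring

end Pool.Agent.Lib.MP_619567_an
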