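import Pool.Agent.Lib.MP_619567_an.Stm

set_option autoImplicit false

open Filter Topology Set

namespace Pool.Agent.Lib.MP_619567_an

theorem p_gsym : S_gsym := by
  intro ℓ s t θ
  constructor
  · unfold G
    rw [← (Equiv.neg ℤ).tsum_eq]
    apply tsum_congr
    intro k
    have h1 : Dk t (-θ - ((Equiv.neg ℤ k : ℤ) : ℝ) * ℓ) = Dk t (θ - k * ℓ) := by
      unfold Dk
      have : -θ - ((Equiv.neg ℤ k : ℤ) : ℝ) * ℓ = -(θ - k * ℓ) := by
        simp only [Equiv.neg_apply]; push_cast; ring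
      rw [this, Real.cosh_neg]
    rw [h1]
  · unfold G
    rw [← (Equiv.addRight (1 : ℤ)).tsum_eq]
    apply tsum_congr
    intro k
    have h1 : θ + ℓ - ((Equiv.addRight (1 : ℤ) k : ℤ) : ℝ) * ℓ = θ - k * ℓ := by
      simp only [Equiv.coe_addRight]; push_cast; ring
    rw [h1]

end Pool.Agent.Lib.MP_619567_an
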