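import Mathlib
import Pool.Agent.Lib.MP_619567_an.Stm

set_option autoImplicit false

open Filter Topology Set

namespace Pool.Agent.Lib.MP_619567_an

private theorem intl_prod (u : ℝ) :
    8 * (Real.sigmoid u * (1 - Real.sigmoid u)) = ((Real.cosh u + 1) / 4)⁻¹ := by
  have h2 : 0 < Real.exp (-u) := Real.exp_pos _
  have h1 : Real.exp u = (Real.exp (-u))⁻¹ := by rw [Real.exp_neg, inv_inv]
  rw [Real.sigmoid_def, Real.cosh_eq, h1]
  set b := Real.exp (-u)
  refine eq_inv_of_mul_eq_one_left ?_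
  field_simp
  ring

private noncomputable def intl_g (s : ℂ) (x : ℝ) : ℂ :=
  Complex.exp (s * (Real.log 8 : ℝ)) * ((x : ℂ) ^ (s - 1) * (1 - (x : ℂ)) ^ (s - 1))

private theorem intl_key (s : ℂ) (u : ℝ) :
    |Real.sigmoid u * (1 - Real.sigmoid u)| • intl_g s (Real.sigmoid u) = T s 0 (u : ℂ) := by
  set x := Real.sigmoid u with hx
  have h0 : 0 < x := Real.sigmoid_pos u
  have h1 : 0 < 1 - x := sub_pos.2 (Real.sigmoid_lt_one u)
  have h2 : 0 < x * (1 - x) := mul_pos h0 h1
  have hk := intl_prod u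
  rw [← hx] at hk
  have hc : 0 < (Real.cosh u + 1) / 4 := by
    have := Real.cosh_pos u
    positivity
  have hlog : Real.log 8 + Real.log x + Real.log (1 - x) = -Real.log ((Real.cosh u + 1) / 4) := by
    rw [← Real.log_inv, ← hk, Real.log_mul (by norm_num) h2.ne', Real.log_mul h0.ne' h1.ne']
    ring
  have e1 : (x : ℂ) ^ (s - 1) = Complex.exp ((s - 1) * (Real.log x : ℝ)) := by
    rw [Complex.cpow_def_of_ne_zero (by exact_mod_cast h0.ne'), ← Complex.ofReal_log h0.le, mul_comm]
  have e2 : (1 - (x : ℂ)) ^ (s - 1) = Complex.exp ((s - 1) * (Real.log (1 - x) : ℝ)) := by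
    have : (1 - (x : ℂ)) = ((1 - x : ℝ) : ℂ) := by push_cast; rfl
    rw [this, Complex.cpow_def_of_ne_zero (by exact_mod_cast h1.ne'), ← Complex.ofReal_log h1.le,
      mul_comm]
  have e3 : ((|x * (1 - x)| : ℝ) : ℂ) = Complex.exp ((Real.log x : ℝ) + (Real.log (1 - x) : ℝ)) := by
    rw [abs_of_pos h2, ← Complex.ofReal_add, ← Real.log_mul h0.ne' h1.ne', ← Complex.ofReal_exp,
      Real.exp_log h2]
  have e4 : T s 0 (u : ℂ) = Complex.exp (-s * (Real.log ((Real.cosh u + 1) / 4) : ℝ)) := by
    unfold T W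
    have : (((1 : ℂ) + 0) * Complex.cosh (u : ℂ) + (1 - 0)) / 4 =
        (((Real.cosh u + 1) / 4 : ℝ) : ℂ) := by
      push_cast
      ring
    rw [this, Complex.ofReal_log hc.le]
  have e5 : |x * (1 - x)| • intl_g s x = ((|x * (1 - x)| : ℝ) : ℂ) * intl_g s x :=
    Complex.real_smul
  rw [e5, intl_g, e1, e2, e3, e4, ← Complex.exp_add, ← Complex.exp_add, ← Complex.exp_add]
  congr 1
  have h3 : ((Real.log ((Real.cosh u + 1) / 4) : ℝ) : ℂ) =
      -((Real.log 8 : ℝ) + (Real.log x : ℝ) + (Real.log (1 - x) : ℝ)) := by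
    rw [← Complex.ofReal_add, ← Complex.ofReal_add, ← Complex.ofReal_neg, hlog, neg_neg]
  rw [h3]
  ring

theorem p_intl : S_intl := by
  intro lam
  set s := sv lam with hs
  have hre : 0 < s.re := by
    rw [hs, sv]
    simp
  have himg : Real.sigmoid '' (univ : Set ℝ) = Ioo 0 1 := by
    rw [image_univ, Real.range_sigmoid]
  have hder : ∀ x ∈ (univ : Set ℝ),
      HasDerivWithinAt Real.sigmoid (Real.sigmoid x * (1 - Real.sigmoid x)) univ x :=
    fun x _ => (Real.hasDerivAt_sigmoid x).hasDerivWithinAt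
  have hinj : InjOn Real.sigmoid (univ : Set ℝ) := Real.sigmoid_injective.injOn
  have hfun : (fun u : ℝ => |Real.sigmoid u * (1 - Real.sigmoid u)| • intl_g s (Real.sigmoid u)) =
      fun u : ℝ => T s 0 (u : ℂ) := funext (intl_key s)
  constructor
  · have h1 := MeasureTheory.integrableOn_image_iff_integrableOn_abs_deriv_smul MeasurableSet.univ
      hder hinj (intl_g s)
    rw [himg, hfun, MeasureTheory.integrableOn_univ] at h1
    rw [← h1]
    have h2 := Complex.betaIntegral_convergent hre hre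
    rw [intervalIntegrable_iff_integrableOn_Ioo_of_le zero_le_one] at h2
    exact h2.const_mul _
  · have h1 := MeasureTheory.integral_image_eq_integral_abs_deriv_smul MeasurableSet.univ
      hder hinj (intl_g s)
    rw [himg, hfun, MeasureTheory.setIntegral_univ] at h1
    rw [← h1, Complex.betaIntegral, intervalIntegral.integral_of_le zero_le_one,
      MeasureTheory.integral_Ioc_eq_integral_Ioo, ← MeasureTheory.integral_const_mul]
    rfl

end Pool.Agent.Lib.MP_619567_an
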