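import Pool.Agent.Lib.MP_619567_an.Stm

/-! Piece [619 LIM]. -/

set_option autoImplicit false

open Filter Topology Set UpperHalfPlane

namespace Pool.Agent.Lib.MP_619567_an

theorem lim_inj (hfer : S_fer) {ℓ : ℝ} (hℓ : 0 < ℓ) :
    Function.Injective (fun k : ℤ => dil ℓ ^ k) := by
  intro k m hkm
  have hkm' : dil ℓ ^ k = dil ℓ ^ m := hkm
  have h1 := hfer.1 ℓ 0 0 k
  have h2 := hfer.1 ℓ 0 0 m
  rw [hkm', h2] at h1
  have h3 := hfer.2.2.2.1 0 (0 + k * ℓ)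
  have h4 := hfer.2.2.2.1 0 (0 + m * ℓ)
  rw [← h1, h4] at h3
  have h5 : (m : ℝ) * ℓ = k * ℓ := by linarith
  have h6 : (m : ℝ) = k := mul_right_cancel₀ hℓ.ne' h5
  exact_mod_cast h6.symm

theorem lim_kernel (hfer : S_fer) {ℓ : ℝ} (hℓ : 0 < ℓ) (s : ℂ) (z : ℍ) {e ρ ξ : ℝ}
    (he : e = 1 ∨ e = -1) (hρ : 0 < ρ) :
    resolventKernel (cyl ℓ) s z (funnelPt e ρ ξ) =
      ∑' k : ℤ, green s z (funnelPt e ρ (ξ + k * ℓ)) := by
  let φ : ℤ → cyl ℓ := fun k => ⟨dil ℓ ^ k, k, rfl⟩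
  have hφ : Function.Bijective φ := by
    refine ⟨?_, ?_⟩
    · intro k m hkm
      exact lim_inj hfer hℓ (congrArg Subtype.val hkm)
    · rintro ⟨g, k, hk⟩
      exact ⟨k, Subtype.ext hk⟩
  unfold resolventKernel
  rw [← (Equiv.ofBijective φ hφ).tsum_eq]
  refine tsum_congr fun k => ?_
  have h1 : ((Equiv.ofBijective φ hφ k : cyl ℓ)).1 = dil ℓ ^ k := rfl
  rw [h1, hfer.2.2.2.2.1 e ρ ξ he hρ, hfer.1, ← hfer.2.2.2.2.1 e ρ (ξ + k * ℓ) he hρ]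

theorem p_lim : S_lim := by
  intro hfer hgrn hmaj ℓ lam e t θ ξ hℓ he
  obtain ⟨hg1, C, δ, hδ, hg2⟩ := hgrn hfer lam e t he
  obtain ⟨hm1, hm2⟩ := hmaj ℓ hℓ |θ - ξ|
  have hmain : Tendsto (fun ρ : ℝ => ∑' k : ℤ, (ρ : ℂ) ^ (-sv lam) *
      green (sv lam) (fermi t θ) (funnelPt e ρ (ξ + k * ℓ))) (𝓝[>] 0)
      (𝓝 (∑' k : ℤ, Complex.betaIntegral (sv lam) (sv lam) / (4 * (Real.pi : ℂ)) *
        Complex.exp (-sv lam * ((Real.log (Dk (e * t) (θ - (ξ + k * ℓ)) / 2) : ℝ) : ℂ)))) := by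
    refine tendsto_tsum_of_dominated_convergence
      (bound := fun k : ℤ => |C| * (2 * Real.exp (|θ - ξ| / 2) * Real.exp (-(ℓ / 2) * |(k : ℝ)|)))
      (hm2.mul_left _) ?_ ?_
    · intro k
      exact hg1 θ (ξ + k * ℓ)
    · have hev : ∀ᶠ ρ : ℝ in 𝓝[>] 0, ρ ∈ Ioo (0 : ℝ) δ := Ioo_mem_nhdsGT hδ
      filter_upwards [hev] with ρ hρ k
      refine (hg2 θ (ξ + k * ℓ) ρ hρ.1 hρ.2).trans ?_
      have h1 : θ - (ξ + k * ℓ) = (θ - ξ) - k * ℓ := by ring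
      rw [h1]
      have h2 := hm1 (θ - ξ) k le_rfl
      have h3 : C / Real.sqrt (Real.cosh (θ - ξ - k * ℓ)) =
          C * (1 / Real.sqrt (Real.cosh (θ - ξ - k * ℓ))) := by ring
      rw [h3]
      have h4 : 0 ≤ 1 / Real.sqrt (Real.cosh (θ - ξ - k * ℓ)) := by positivity
      calc C * (1 / Real.sqrt (Real.cosh (θ - ξ - k * ℓ)))
          ≤ |C| * (1 / Real.sqrt (Real.cosh (θ - ξ - k * ℓ))) :=
            mul_le_mul_of_nonneg_right (le_abs_self C) h4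
        _ ≤ _ := mul_le_mul_of_nonneg_left h2 (abs_nonneg C)
  have hG : (∑' k : ℤ, Complex.betaIntegral (sv lam) (sv lam) / (4 * (Real.pi : ℂ)) *
        Complex.exp (-sv lam * ((Real.log (Dk (e * t) (θ - (ξ + k * ℓ)) / 2) : ℝ) : ℂ))) =
      Complex.betaIntegral (sv lam) (sv lam) / (4 * (Real.pi : ℂ)) *
        G ℓ (sv lam) (e * t) (θ - ξ) := by
    rw [tsum_mul_left]
    unfold G
    congr 1
    refine tsum_congr fun k => ?_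
    have h1 : θ - (ξ + k * ℓ) = (θ - ξ) - k * ℓ := by ring
    rw [h1]
  rw [hG] at hmain
  refine hmain.congr' ?_
  have hev : ∀ᶠ ρ : ℝ in 𝓝[>] 0, ρ ∈ Ioi (0 : ℝ) := self_mem_nhdsWithin
  filter_upwards [hev] with ρ hρ
  rw [lim_kernel hfer hℓ (sv lam) (fermi t θ) he hρ, tsum_mul_left]

end Pool.Agent.Lib.MP_619567_an
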