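import Pool.Agent.Lib.MP_619567_an.Stm

set_option autoImplicit false

open Filter Topology Set

namespace Pool.Agent.Lib.MP_619567_an

theorem p_maj : S_maj := by
  intro ℓ hℓ B
  constructor
  · intro x k hx
    have h1 : Real.exp |x - k * ℓ| / 2 ≤ Real.cosh (x - k * ℓ) := by
      rw [← Real.cosh_abs, Real.cosh_eq]
      have := Real.exp_pos (-|x - k * ℓ|)
      linarith
    have h2 : |(k : ℝ)| * ℓ - B ≤ |x - k * ℓ| := by
      have h3 : |(k : ℝ) * ℓ| ≤ |x| + |x - k * ℓ| := by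
        calc |(k : ℝ) * ℓ| = |x - (x - k * ℓ)| := by ring_nf
          _ ≤ |x| + |x - k * ℓ| := abs_sub _ _
      rw [abs_mul, abs_of_pos hℓ] at h3
      linarith
    have h4 : Real.exp (|(k : ℝ)| * ℓ - B) / 4 ≤ Real.cosh (x - k * ℓ) := by
      have := Real.exp_le_exp.2 h2
      have := Real.exp_pos (|(k : ℝ)| * ℓ - B)
      linarith
    have h5 : Real.sqrt (Real.exp (|(k : ℝ)| * ℓ - B) / 4) =
        Real.exp ((|(k : ℝ)| * ℓ - B) / 2) / 2 := by
      rw [Real.sqrt_div' _ (by norm_num), ← Real.exp_half]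
      congr 1
      rw [show (4:ℝ) = 2 ^ 2 by norm_num]; exact Real.sqrt_sq (by norm_num)
    have h6 := Real.sqrt_le_sqrt h4
    rw [h5] at h6
    have h7 : 0 < Real.exp ((|(k : ℝ)| * ℓ - B) / 2) := Real.exp_pos _
    calc 1 / Real.sqrt (Real.cosh (x - k * ℓ))
        ≤ 1 / (Real.exp ((|(k : ℝ)| * ℓ - B) / 2) / 2) :=
          one_div_le_one_div_of_le (by positivity) h6
      _ = 2 * Real.exp (B / 2) * Real.exp (-(ℓ / 2) * |(k : ℝ)|) := by
          rw [mul_assoc, ← Real.exp_add, one_div_div, div_eq_mul_inv, ← Real.exp_neg]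
          congr 2
          ring
  · have h1 : Summable (fun n : ℕ => Real.exp (-(ℓ / 2) * |((n : ℤ) : ℝ)|)) := by
      have h2 : Summable (fun n : ℕ => Real.exp (-(ℓ / 2)) ^ n) :=
        summable_geometric_of_lt_one (Real.exp_pos _).le (by
          rw [Real.exp_lt_one_iff]; linarith)
      refine h2.congr (fun n => ?_)
      rw [← Real.exp_nat_mul]
      congr 1
      rw [Int.cast_natCast, Nat.abs_cast]
      ring
    have h3 : Summable (fun n : ℕ => Real.exp (-(ℓ / 2) * |((-(n : ℤ) : ℤ) : ℝ)|)) := by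
      refine h1.congr (fun n => ?_)
      rw [Int.cast_neg, abs_neg]
    have h4 : Summable (fun k : ℤ => Real.exp (-(ℓ / 2) * |(k : ℝ)|)) :=
      Summable.of_nat_of_neg h1 h3
    exact h4.mul_left _

end Pool.Agent.Lib.MP_619567_an
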