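import Pool.Agent.Lib.MP_619567_an.Stm

/-!
# MAP: the folded coordinates
-/

set_option autoImplicit false

open Filter Topology Set UpperHalfPlane

namespace Pool.Agent.Lib.MP_619567_an

/-- the folded coordinates on the half plane -/
private noncomputable def map_phi (ℓ e ξ : ℝ) (z : ℍ) : ℝ × ℝ :=
  (e * Real.arsinh (z.re / z.im), ‖((Real.log ‖(z : ℂ)‖ - ξ : ℝ) : AddCircle ℓ)‖)

private theorem map_cont (ℓ e ξ : ℝ) : Continuous (map_phi ℓ e ξ) := by
  unfold map_phi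
  refine Continuous.prodMk ?_ ?_
  · refine continuous_const.mul (Real.continuous_arsinh.comp ?_)
    exact UpperHalfPlane.continuous_re.div UpperHalfPlane.continuous_im (fun z => z.im_ne_zero)
  · refine continuous_norm.comp ((AddCircle.continuous_mk' ℓ).comp ?_)
    refine Continuous.sub ?_ continuous_const
    refine Continuous.log (continuous_norm.comp UpperHalfPlane.continuous_coe) (fun z => ?_)
    exact norm_ne_zero_iff.2 (UpperHalfPlane.ne_zero z)

private theorem map_fermi (hfer : S_fer) (ℓ e ξ t θ : ℝ) :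
    map_phi ℓ e ξ (fermi t θ) = (e * t, ‖((θ - ξ : ℝ) : AddCircle ℓ)‖) := by
  unfold map_phi
  rw [hfer.2.2.1 t θ, hfer.2.2.2.1 t θ]

theorem p_map : S_map := by
  intro hfer ℓ e ξ hℓ _
  have hinv : ∀ a b : ℍ, (MulAction.orbitRel (cyl ℓ) ℍ) a b → map_phi ℓ e ξ a = map_phi ℓ e ξ b := by
    rintro a b ⟨⟨g, hg⟩, hab⟩
    obtain ⟨k, hk⟩ := Subgroup.mem_zpowers_iff.1 hg
    have h1 : g • b = a := hab
    rw [← hk] at h1
    rw [← hfer.2.1 b, hfer.1] at h1
    rw [← h1, map_fermi hfer]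
    rw [← hfer.2.1 b, map_fermi hfer, hfer.2.1 b]
    have h2 : ((Real.log ‖(b : ℂ)‖ + k * ℓ - ξ : ℝ) : AddCircle ℓ) =
        ((Real.log ‖(b : ℂ)‖ - ξ : ℝ) : AddCircle ℓ) := by
      have h3 : Real.log ‖(b : ℂ)‖ + k * ℓ - ξ = (Real.log ‖(b : ℂ)‖ - ξ) + k • ℓ := by
        rw [zsmul_eq_mul]
        ring
      rw [h3, AddCircle.coe_add, AddCircle.coe_zsmul, AddCircle.coe_period, smul_zero, add_zero]
    rw [h2]
  refine ⟨Quotient.lift (map_phi ℓ e ξ) hinv, (map_cont ℓ e ξ).quotient_lift hinv,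
    fun t θ => ?_, fun x => ?_, fun f hev hper t θ => ?_⟩
  · exact map_fermi hfer ℓ e ξ t θ
  · induction x using Quotient.inductionOn with
    | h z =>
      show 0 ≤ ‖((Real.log ‖(z : ℂ)‖ - ξ : ℝ) : AddCircle ℓ)‖ ∧
        ‖((Real.log ‖(z : ℂ)‖ - ξ : ℝ) : AddCircle ℓ)‖ ≤ ℓ / 2
      refine ⟨norm_nonneg _, ?_⟩
      have h := AddCircle.norm_le_half_period ℓ
        (x := ((Real.log ‖(z : ℂ)‖ - ξ : ℝ) : AddCircle ℓ)) hℓ.ne'
      rwa [abs_of_pos hℓ] at h
  · have hP : Function.Periodic (fun θ : ℝ => f (t, θ)) ℓ := fun θ => hper t θ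
    have h1 : ∀ x : ℝ, f (t, |x|) = f (t, x) := by
      intro x
      rcases abs_choice x with h | h
      · rw [h]
      · rw [h, hev]
    rw [AddCircle.norm_eq, h1]
    have h2 := hP.sub_zsmul_eq (x := θ) (round (ℓ⁻¹ * θ))
    rw [zsmul_eq_mul] at h2
    exact h2

end Pool.Agent.Lib.MP_619567_an
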