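import Pool.Agent.Lib.MP_619567_an.Stm

set_option autoImplicit false

open Filter Topology Set UpperHalfPlane

namespace Pool.Agent.Lib.MP_619567_an

theorem p_nod : S_nod := by
  intro hfer hmap hcpt ℓ e ξ hℓ he f hf hsymm hper hT F hF
  obtain ⟨φ, hφc, hφ, hφs, hφf⟩ := hmap hfer ℓ e ξ hℓ he
  have hsurj : ∀ x : Quotient (MulAction.orbitRel (cyl ℓ) ℍ), ∃ t θ : ℝ,
      x = Quotient.mk (MulAction.orbitRel (cyl ℓ) ℍ) (fermi t θ) := by
    intro x
    induction x using Quotient.inductionOn with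
    | h z =>
      refine ⟨Real.arsinh (z.re / z.im), Real.log ‖(z : ℂ)‖, ?_⟩
      rw [hfer.2.1 z]
  have hFf : ∀ t θ : ℝ, F (fermi t θ) =
      f (φ (Quotient.mk (MulAction.orbitRel (cyl ℓ) ℍ) (fermi t θ))) := by
    intro t θ
    rw [hφ, hF, hφf f hsymm hper]
  have hN1 : ∀ x ∈ nodalCompl (cyl ℓ) F, f (φ x) ≠ 0 := by
    rintro x ⟨z, hz, rfl⟩
    have hz' : F z ≠ 0 := hz
    rw [← hfer.2.1 z] at hz' ⊢
    rw [hFf] at hz'
    exact hz'
  have hN2 : ∀ x, f (φ x) ≠ 0 → x ∈ nodalCompl (cyl ℓ) F := by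
    intro x hx
    obtain ⟨t, θ, rfl⟩ := hsurj x
    refine ⟨fermi t θ, ?_, rfl⟩
    change F (fermi t θ) ≠ 0
    rw [hFf]
    exact hx
  intro hfin
  set S := {D : Set (Quotient (MulAction.orbitRel (cyl ℓ) ℍ)) |
      IsNodalDomain (cyl ℓ) F D ∧ IsCompact (closure D)} with hS
  have hK : IsCompact (⋃ D ∈ S, closure D) := hfin.isCompact_biUnion (fun D hD => hD.2)
  have hbdd : BddBelow ((fun x => (φ x).1) '' (⋃ D ∈ S, closure D)) :=
    hK.bddBelow_image (continuous_fst.comp hφc).continuousOn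
  obtain ⟨b, hb⟩ := hbdd
  obtain ⟨t, htb, hft, B, hB⟩ := hT b
  set x0 : Quotient (MulAction.orbitRel (cyl ℓ) ℍ) :=
    Quotient.mk (MulAction.orbitRel (cyl ℓ) ℍ) (fermi (e * t) ξ) with hx0
  have hee : e * e = 1 := by
    rcases he with h | h <;> rw [h] <;> norm_num
  have hφx0 : φ x0 = (t, 0) := by
    rw [hx0, hφ, sub_self, ← mul_assoc, hee, one_mul]
    have h0 : ((0 : ℝ) : AddCircle ℓ) = 0 := AddCircle.coe_zero _
    rw [h0, norm_zero]
  have hx0N : x0 ∈ nodalCompl (cyl ℓ) F := by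
    apply hN2
    rw [hφx0]
    exact hft
  have hx0D : x0 ∈ connectedComponentIn (nodalCompl (cyl ℓ) F) x0 :=
    mem_connectedComponentIn hx0N
  have himg : φ '' (connectedComponentIn (nodalCompl (cyl ℓ) F) x0) ⊆ comp f (ℓ / 2) (t, 0) := by
    unfold comp
    apply IsPreconnected.subset_connectedComponentIn
    · exact isPreconnected_connectedComponentIn.image _ hφc.continuousOn
    · exact ⟨x0, hx0D, hφx0⟩
    · rintro _ ⟨x, hx, rfl⟩
      exact ⟨hφs x, hN1 x (connectedComponentIn_subset _ _ hx)⟩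
  have hDS : connectedComponentIn (nodalCompl (cyl ℓ) F) x0 ∈ S := by
    refine ⟨⟨x0, hx0N, rfl⟩, ?_⟩
    apply hcpt hfer ℓ e ξ B hℓ he φ hφc hφ
    intro x hx
    exact hB (φ x) (himg ⟨x, hx, rfl⟩)
  have h1 : b ≤ (φ x0).1 := by
    apply hb
    refine ⟨x0, ?_, rfl⟩
    exact mem_biUnion hDS (subset_closure hx0D)
  rw [hφx0] at h1
  exact absurd h1 (not_le.2 htb)

end Pool.Agent.Lib.MP_619567_an
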