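import Pool.Agent.Lib.MP_619567_an.Stm

/-!
# NONFLAT
-/

set_option autoImplicit false

open Filter Topology Set

namespace Pool.Agent.Lib.MP_619567_an

theorem p_nonflat : S_nonflat := by
  intro U h hU hR hd hx0 x
  by_contra hcon
  push Not at hcon
  -- the real function
  have han : AnalyticOnNhd ℝ (fun y : ℝ => (h (y : ℂ)).re) univ := by
    intro y _
    have h1 : AnalyticAt ℂ h (y : ℂ) := hd.analyticAt (hU.mem_nhds (hR y))
    have h2 : AnalyticAt ℝ h (y : ℂ) := h1.restrictScalars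
    have h3 : AnalyticAt ℝ (fun t : ℝ => (t : ℂ)) y := Complex.ofRealCLM.analyticAt y
    have h4 : AnalyticAt ℝ (fun t : ℝ => h (t : ℂ)) y := AnalyticAt.fun_comp (f := fun t : ℝ => (t : ℂ)) h2 h3
    exact (Complex.reCLM.analyticAt _).comp h4
  obtain ⟨r, hr, hball⟩ := Metric.isOpen_iff.1 hU (x : ℂ) (hR x)
  have hev : (fun y : ℝ => (h (y : ℂ)).re) =ᶠ[𝓝 x] 0 := by
    filter_upwards [Metric.ball_mem_nhds x hr] with y hy
    have hy' : (y : ℂ) ∈ Metric.ball (x : ℂ) r := by
      rw [Metric.mem_ball, Complex.dist_eq, ← Complex.ofReal_sub, Complex.norm_real]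
      rw [Metric.mem_ball, Real.dist_eq] at hy
      exact hy
    have h1 := Complex.hasSum_taylorSeries_on_ball (hd.mono hball) hy'
    have h2 := (Complex.hasSum_iff _ _).1 h1
    have h3 : (fun n : ℕ => (((n.factorial : ℂ)⁻¹ • ((y : ℂ) - (x : ℂ)) ^ n •
        iteratedDeriv n h (x : ℂ)) : ℂ).re) = fun _ => 0 := by
      funext n
      have e1 : ((n.factorial : ℂ)⁻¹ • ((y : ℂ) - (x : ℂ)) ^ n • iteratedDeriv n h (x : ℂ)) =
          (((n.factorial : ℝ)⁻¹ * (y - x) ^ n : ℝ) : ℂ) * iteratedDeriv n h (x : ℂ) := by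
        push_cast
        rw [smul_eq_mul, smul_eq_mul]
        ring
      rw [e1, Complex.re_ofReal_mul, hcon n, mul_zero]
    have h4 := h2.1
    rw [h3] at h4
    exact h4.unique hasSum_zero
  have hz := han.eqOn_zero_of_preconnected_of_eventuallyEq_zero isPreconnected_univ
    (mem_univ x) hev
  obtain ⟨y, hy⟩ := hx0
  exact hy (hz (mem_univ y))

end Pool.Agent.Lib.MP_619567_an
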