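import Pool.Agent.Lib.MP_619567_an.Stm

set_option autoImplicit false

open Filter Topology Set UpperHalfPlane

namespace Pool.Agent.Lib.MP_619567_an

theorem p_ord : S_ord := by
  intro heps hga hgnz hbnd hmaj ℓ lam hℓ
  have hdiff := heps hbnd hmaj ℓ lam hℓ
  set U : Set ℂ := {ε : ℂ | -1 < ε.re} with hU
  have hopen : IsOpen U := isOpen_lt continuous_const Complex.continuous_re
  have hconn : IsPreconnected U := (convex_halfSpace_re_gt (-1)).isPreconnected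
  have hana : AnalyticOnNhd ℂ (fun ε : ℂ => A ℓ (sv lam) ε 0) U := hdiff.analyticOnNhd hopen
  have h0U : (0 : ℂ) ∈ U := by
    change (-1 : ℝ) < (0 : ℂ).re
    rw [Complex.zero_re]
    norm_num
  have hnz : ¬ ∀ᶠ z in 𝓝 (0 : ℂ), A ℓ (sv lam) z 0 = 0 := by
    intro hz
    obtain ⟨t, ht⟩ := hgnz hmaj ℓ lam hℓ
    apply ht
    rw [hga, Complex.ofReal_zero]
    have h1 := hana.eqOn_zero_of_preconnected_of_eventuallyEq_zero hconn h0U hz
    have h2 : ((Real.exp (2 * t) : ℝ) : ℂ) ∈ U := by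
      change (-1 : ℝ) < ((Real.exp (2 * t) : ℝ) : ℂ).re
      rw [Complex.ofReal_re]
      linarith [Real.exp_pos (2 * t)]
    have h3 : A ℓ (sv lam) ((Real.exp (2 * t) : ℝ) : ℂ) 0 = 0 := h1 h2
    rw [h3, mul_zero]
  obtain ⟨m, g, hg, hg0, hev⟩ :=
    (AnalyticAt.exists_eventuallyEq_pow_smul_nonzero_iff (hana 0 h0U)).2 hnz
  refine ⟨m, g 0, hg0, ?_⟩
  have hcont : Tendsto (fun ε : ℝ => (ε : ℂ)) (𝓝[>] 0) (𝓝 (0 : ℂ)) := by
    have h1 : Tendsto (fun ε : ℝ => (ε : ℂ)) (𝓝 0) (𝓝 ((0 : ℝ) : ℂ)) :=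
      Complex.continuous_ofReal.tendsto 0
    rw [Complex.ofReal_zero] at h1
    exact h1.mono_left nhdsWithin_le_nhds
  have hlim : Tendsto (fun ε : ℝ => g (ε : ℂ)) (𝓝[>] 0) (𝓝 (g 0)) :=
    (hg.continuousAt.tendsto).comp hcont
  refine hlim.congr' ?_
  filter_upwards [hcont.eventually hev, self_mem_nhdsWithin] with ε h1 h2
  have hε : (ε : ℂ) ≠ 0 := by
    have h3 : (0 : ℝ) < ε := h2
    exact_mod_cast h3.ne'
  have h4 : A ℓ (sv lam) (ε : ℂ) 0 = ((ε : ℂ) - 0) ^ m • g (ε : ℂ) := h1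
  rw [h4, sub_zero, smul_eq_mul, mul_div_cancel_left₀ _ (pow_ne_zero m hε)]

end Pool.Agent.Lib.MP_619567_an
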