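import Pool.Agent.Lib.MP_619567_an.Stm

open Filter Topology Set UpperHalfPlane

namespace Pool.Agent.Lib.MP_619567_an

theorem p_rolle : S_rolle := by
  intro n
  induction n with
  | zero =>
    intro φ _ J _ Z hZ hc
    obtain ⟨z, hz⟩ := Finset.card_pos.1 (by omega : 0 < Z.card)
    exact ⟨z, (hZ z hz).1, by rw [iteratedDeriv_zero]; exact (hZ z hz).2⟩
  | succ n ih =>
    intro φ hφ J hJ Z hZ hc
    obtain ⟨e, he⟩ : ∃ e : Fin Z.card ↪o ℝ, ∀ i, e i ∈ Z :=
      ⟨Z.orderEmbOfFin rfl, fun i => Z.orderEmbOfFin_mem rfl i⟩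
    have hlt : ∀ i : Fin (n + 1), e ⟨i.1, by omega⟩ < e ⟨i.1 + 1, by omega⟩ := by
      intro i
      apply e.strictMono
      rw [Fin.mk_lt_mk]
      omega
    have hR : ∀ i : Fin (n + 1), ∃ y ∈ Ioo (e ⟨i.1, by omega⟩) (e ⟨i.1 + 1, by omega⟩), deriv φ y = 0 := by
      intro i
      apply exists_deriv_eq_zero (hlt i) hφ.continuous.continuousOn
      rw [(hZ _ (he _)).2, (hZ _ (he _)).2]
    choose y hy hy0 using hR
    have hmono : StrictMono y := by
      intro i j hij
      have h1 := (hy i).2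
      have h2 := (hy j).1
      have h3 : e ⟨i.1 + 1, by omega⟩ ≤ e ⟨j.1, by omega⟩ := by
        apply e.monotone
        rw [Fin.mk_le_mk]
        exact hij
      linarith
    have hd := (contDiff_infty_iff_deriv.1 hφ).2
    have h1 : ∀ z ∈ Finset.univ.image y, z ∈ J ∧ deriv φ z = 0 := by
      intro z hz
      obtain ⟨i, _, rfl⟩ := Finset.mem_image.1 hz
      refine ⟨?_, hy0 i⟩
      exact hJ.out (hZ _ (he _)).1 (hZ _ (he _)).1 (Ioo_subset_Icc_self (hy i))
    have h2 : n + 1 ≤ (Finset.univ.image y).card := by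
      rw [Finset.card_image_of_injective _ hmono.injective, Finset.card_univ, Fintype.card_fin]
    obtain ⟨x, hx, hx0⟩ := ih (deriv φ) hd J hJ (Finset.univ.image y) h1 h2
    exact ⟨x, hx, by rw [iteratedDeriv_succ']; exact hx0⟩

end Pool.Agent.Lib.MP_619567_an
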