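import Pool.Agent.Lib.MP_619567_an.Stm

/-!
# SEG: a level with at most `N` zeros meets at most `N + 1` components
-/

set_option autoImplicit false

open Filter Topology Set

namespace Pool.Agent.Lib.MP_619567_an

private theorem seg_zero (hC : S_comp) (f : ℝ × ℝ → ℝ) (hf : Continuous f) (H t : ℝ)
    (p q : ℝ × ℝ) (y y' : ℝ) (hy : ((t, y) : ℝ × ℝ) ∈ comp f H p)
    (hy' : ((t, y') : ℝ × ℝ) ∈ comp f H q) (hne : comp f H p ≠ comp f H q) (hlt : y < y') :
    ∃ z : ℝ, (z ∈ Icc 0 H ∧ f (t, z) = 0) ∧ y < z ∧ z < y' := by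
  by_contra hcon
  apply hne
  obtain ⟨-, -, h3, h4, -⟩ := hC f hf H p
  obtain ⟨-, -, h3', h4', -⟩ := hC f hf H q
  have e1 := h3 _ hy
  have e2 := h3' _ hy'
  have s1 := h4 hy
  have s2 := h4' hy'
  have hsub : (fun θ : ℝ => ((t, θ) : ℝ × ℝ)) '' Icc y y' ⊆ strip H ∩ {x | f x ≠ 0} := by
    rintro x ⟨θ, ⟨h1, h2⟩, rfl⟩
    have hst : ((t, θ) : ℝ × ℝ) ∈ strip H := ⟨le_trans s1.1.1 h1, le_trans h2 s2.1.2⟩
    refine ⟨hst, ?_⟩
    intro h0
    rcases eq_or_lt_of_le h1 with h1 | h1
    · exact s1.2 (by rw [h1]; exact h0)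
    rcases eq_or_lt_of_le h2 with h2 | h2
    · exact s2.2 (by rw [← h2]; exact h0)
    exact hcon ⟨θ, ⟨⟨hst.1, hst.2⟩, h0⟩, h1, h2⟩
  have hpre : IsPreconnected ((fun θ : ℝ => ((t, θ) : ℝ × ℝ)) '' Icc y y') :=
    isPreconnected_Icc.image _ (by fun_prop)
  have hmem : ((t, y') : ℝ × ℝ) ∈ comp f H (t, y) :=
    hpre.subset_connectedComponentIn (mem_image_of_mem _ (left_mem_Icc.2 hlt.le)) hsub
      (mem_image_of_mem _ (right_mem_Icc.2 hlt.le))
  obtain ⟨-, -, h3'', -, -⟩ := hC f hf H (t, y)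
  rw [← e1, ← e2, h3'' _ hmem]

theorem p_seg : S_seg := by
  intro hC f hf H _ t N hN n p y hy hne
  set Z : Set ℝ := {θ : ℝ | θ ∈ Icc 0 H ∧ f (t, θ) = 0} with hZ
  have hfin : Z.Finite := Set.finite_of_encard_le_coe hN
  have hcard : hfin.toFinset.card ≤ N := by
    have := hfin.encard_eq_coe_toFinset_card
    rw [this] at hN
    exact_mod_cast hN
  classical
  let c : Fin n → ℕ := fun i => (hfin.toFinset.filter (fun z => z < y i)).card
  have hlt : ∀ i j, i ≠ j → y i < y j → c i < c j := by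
    intro i j hij h
    obtain ⟨z, hz, h1, h2⟩ := seg_zero hC f hf H t (p i) (p j) (y i) (y j) (hy i) (hy j)
      (hne i j hij) h
    apply Finset.card_lt_card
    refine ⟨?_, ?_⟩
    · intro x hx
      simp only [Finset.mem_filter] at hx ⊢
      exact ⟨hx.1, hx.2.trans h⟩
    · intro hs
      have hz' : z ∈ hfin.toFinset.filter (fun z => z < y j) := by
        simp only [Finset.mem_filter, Set.Finite.mem_toFinset]
        exact ⟨hz, h2⟩
      have := hs hz'
      simp only [Finset.mem_filter] at this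
      exact absurd this.2 (not_lt.2 h1.le)
  have hinj : Function.Injective c := by
    intro i j hij
    by_contra hne'
    rcases lt_trichotomy (y i) (y j) with h | h | h
    · exact absurd hij (hlt i j hne' h).ne
    · apply hne i j hne'
      obtain ⟨-, -, h3, -, -⟩ := hC f hf H (p i)
      obtain ⟨-, -, h3', -, -⟩ := hC f hf H (p j)
      rw [← h3 _ (hy i), ← h3' _ (hy j), h]
    · exact absurd hij.symm (hlt j i (Ne.symm hne') h).ne
  have hle : ∀ i, c i ∈ Finset.range (N + 1) := by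
    intro i
    rw [Finset.mem_range]
    exact Nat.lt_succ_of_le ((Finset.card_filter_le _ _).trans hcard)
  have := Finset.card_le_card_of_injOn c (fun i _ => hle i) (s := Finset.univ)
    (fun a _ b _ h => hinj h)
  simpa using this

end Pool.Agent.Lib.MP_619567_an
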