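import Pool.Agent.Lib.MP_619567_an.Stm

set_option autoImplicit false

open Filter Topology Set

namespace Pool.Agent.Lib.MP_619567_an

private theorem strip_bdd {x y : ℝ × ℝ} (P : Path x y) : ∃ L : ℝ, ∀ w ∈ range P, |w.1| < L ∧ |w.2| < L := by
  have hc : IsCompact (range P) := isCompact_range P.continuous
  obtain ⟨C, hC⟩ := hc.isBounded.exists_norm_le
  refine ⟨C + 1, fun w hw => ?_⟩
  have h := hC w hw
  rw [Prod.norm_def, max_le_iff, Real.norm_eq_abs, Real.norm_eq_abs] at h
  constructor <;> linarith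

private theorem strip_seg {A : Set (ℝ × ℝ)} {x y : ℝ × ℝ}
    (h : ∀ t : ℝ, 0 ≤ t → t ≤ 1 → (x.1 + t * (y.1 - x.1), x.2 + t * (y.2 - x.2)) ∈ A) :
    JoinedIn A x y := by
  apply JoinedIn.of_segment_subset
  intro w hw
  rw [segment_eq_image'] at hw
  obtain ⟨t, ht, rfl⟩ := hw
  exact h t ht.1 ht.2

private theorem strip_conv {u v t m M : ℝ} (h0 : 0 ≤ t) (h1 : t ≤ 1) (hu : m ≤ u) (hu' : u ≤ M)
    (hv : m ≤ v) (hv' : v ≤ M) : m ≤ u + t * (v - u) ∧ u + t * (v - u) ≤ M := by
  constructor <;> nlinarith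

theorem p_strip : S_strip := by
  intro hcross a b c q hac hcb P Q hP hQ hPq
  obtain ⟨L1, hL1⟩ := strip_bdd P
  obtain ⟨L2, hL2⟩ := strip_bdd Q
  obtain ⟨L, hLa, hLb⟩ : ∃ L : ℝ, L1 ≤ L ∧ L2 ≤ L := ⟨max L1 L2, le_max_left _ _, le_max_right _ _⟩
  have haP : ((a, 0) : ℝ × ℝ) ∈ range P := ⟨0, P.source⟩
  have hbP : ((b, 0) : ℝ × ℝ) ∈ range P := ⟨1, P.target⟩
  have hcQ : ((c, 0) : ℝ × ℝ) ∈ range Q := ⟨0, Q.source⟩
  have hqQ : q ∈ range Q := ⟨1, Q.target⟩
  have ha := (hL1 _ haP).1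
  have hb := (hL1 _ hbP).1
  have hc := (hL2 _ hcQ).1
  have hq := hL2 _ hqQ
  have hq2 := hQ q hqQ
  simp only [abs_lt] at ha hb hc hq
  let A : Set (ℝ × ℝ) := {w | w ∈ range P ∨ (w.2 = -1 ∧ (w.1 ≤ a ∨ b ≤ w.1)) ∨
    (w.1 = a ∧ -1 ≤ w.2 ∧ w.2 ≤ 0) ∨ (w.1 = b ∧ -1 ≤ w.2 ∧ w.2 ≤ 0)}
  let B : Set (ℝ × ℝ) := {w | w ∈ range Q ∨ (w.1 = c ∧ -2 ≤ w.2 ∧ w.2 ≤ 0) ∨
    (w.1 = q.1 ∧ q.2 ≤ w.2 ∧ w.2 ≤ L + 1)}
  have hA : JoinedIn A (-L, -1) (L, -1) := by
    have h1 : JoinedIn A (-L, -1) (a, -1) := strip_seg fun t h0 h1 => by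
      refine Or.inr (Or.inl ⟨by ring, Or.inl ?_⟩)
      exact (strip_conv h0 h1 (m := -L) (M := a) le_rfl (by linarith) (by linarith) le_rfl).2
    have h2 : JoinedIn A (a, -1) (a, 0) := strip_seg fun t h0 h1 => by
      refine Or.inr (Or.inr (Or.inl ⟨by ring, ?_⟩))
      exact strip_conv h0 h1 (m := -1) (M := 0) (by norm_num) (by norm_num) (by norm_num) (by norm_num)
    have h3 : JoinedIn A (a, 0) (b, 0) := ⟨P, fun t => Or.inl ⟨t, rfl⟩⟩
    have h4 : JoinedIn A (b, 0) (b, -1) := strip_seg fun t h0 h1 => by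
      refine Or.inr (Or.inr (Or.inr ⟨by ring, ?_⟩))
      exact strip_conv h0 h1 (m := -1) (M := 0) (by norm_num) (by norm_num) (by norm_num) (by norm_num)
    have h5 : JoinedIn A (b, -1) (L, -1) := strip_seg fun t h0 h1 => by
      refine Or.inr (Or.inl ⟨by ring, Or.inr ?_⟩)
      exact (strip_conv h0 h1 (m := b) (M := L) le_rfl (by linarith) (by linarith) le_rfl).1
    exact (((h1.trans h2).trans h3).trans h4).trans h5
  have hB : JoinedIn B (c, -2) (q.1, L + 1) := by
    have h1 : JoinedIn B (c, -2) (c, 0) := strip_seg fun t h0 h1 => by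
      refine Or.inr (Or.inl ⟨by ring, ?_⟩)
      exact strip_conv h0 h1 (m := -2) (M := 0) (by norm_num) (by norm_num) (by norm_num) (by norm_num)
    have h2 : JoinedIn B (c, 0) q := ⟨Q, fun t => Or.inl ⟨t, rfl⟩⟩
    have h3 : JoinedIn B q (q.1, L + 1) := strip_seg fun t h0 h1 => by
      refine Or.inr (Or.inr ⟨by ring, ?_⟩)
      exact strip_conv h0 h1 (m := q.2) (M := L + 1) le_rfl (by linarith) (by linarith) le_rfl
    exact (h1.trans h2).trans h3
  obtain ⟨P', hP'⟩ := hA
  obtain ⟨Q', hQ'⟩ := hB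
  obtain ⟨w, ⟨s, hs⟩, ⟨t, ht⟩⟩ := hcross (-L, -1) (L, -1) (c, -2) (q.1, L + 1) P' Q' (by
    rintro x ⟨t, rfl⟩
    rcases hQ' t with h | h | h
    · have := (hL2 _ h).1
      rw [abs_lt] at this
      constructor
      · show -L < _
        linarith
      · show _ < L
        linarith
    · constructor
      · show -L < _
        rw [h.1]
        linarith
      · show _ < L
        rw [h.1]
        linarith
    · constructor
      · show -L < _
        rw [h.1]
        linarith
      · show _ < L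
        rw [h.1]
        linarith) (by
    rintro x ⟨t, rfl⟩
    rcases hP' t with h | h | h | h
    · have h1 := (hL1 _ h).2
      have h2 := hP _ h
      rw [abs_lt] at h1
      constructor
      · show -2 < _
        linarith
      · show _ < L + 1
        linarith
    · constructor
      · show -2 < _
        rw [h.1]
        norm_num
      · show _ < L + 1
        rw [h.1]
        linarith
    · constructor
      · show -2 < _
        linarith
      · show _ < L + 1
        linarith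
    · constructor
      · show -2 < _
        linarith
      · show _ < L + 1
        linarith)
  have hwA : w ∈ A := hs ▸ hP' s
  have hwB : w ∈ B := ht ▸ hQ' t
  rcases hwA with h | h | h | h
  · rcases hwB with h' | h' | h'
    · exact ⟨w, h, h'⟩
    · have h2 := hP w h
      have hw : w = (c, 0) := Prod.ext h'.1 (by show w.2 = 0; linarith)
      exact ⟨w, h, hw ▸ hcQ⟩
    · exact absurd h'.1 (hPq w h)
  · exfalso
    rcases hwB with h' | h' | h'
    · have := hQ w h'
      linarith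
    · rcases h.2 with h2 | h2 <;> linarith
    · linarith
  · rcases hwB with h' | h' | h'
    · have h2 := hQ w h'
      have hw : w = (a, 0) := Prod.ext h.1 (by show w.2 = 0; linarith)
      exact ⟨w, hw ▸ haP, h'⟩
    · exfalso
      linarith
    · exact absurd (h.1.symm.trans h'.1) (hPq _ haP)
  · rcases hwB with h' | h' | h'
    · have h2 := hQ w h'
      have hw : w = (b, 0) := Prod.ext h.1 (by show w.2 = 0; linarith)
      exact ⟨w, hw ▸ hbP, h'⟩
    · exfalso
      linarith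
    · exact absurd (h.1.symm.trans h'.1) (hPq _ hbP)

end Pool.Agent.Lib.MP_619567_an
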