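import Pool.Agent.Lib.MP_619567_an.Stm

set_option autoImplicit false

open Filter Topology Set UpperHalfPlane

namespace Pool.Agent.Lib.MP_619567_an

private theorem theta_cosh_re (u : ℂ) : (Complex.cosh u).re = Real.cosh u.re * Real.cos u.im := by
  conv_lhs => rw [← Complex.re_add_im u]
  rw [Complex.cosh_add, Complex.cosh_mul_I, Complex.sinh_mul_I, ← Complex.ofReal_cosh,
    ← Complex.ofReal_sinh, ← Complex.ofReal_cos, ← Complex.ofReal_sin, ← Complex.ofReal_mul,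
    ← mul_assoc, ← Complex.ofReal_mul, Complex.add_re, Complex.ofReal_re, Complex.re_ofReal_mul,
    Complex.I_re, mul_zero, add_zero]

private theorem theta_re (ε : ℝ) (u : ℂ) :
    (W (ε : ℂ) u).re = (1 + ε) * (Real.cosh u.re * Real.cos u.im) + (1 - ε) := by
  have h : W (ε : ℂ) u = ((1 + ε : ℝ) : ℂ) * Complex.cosh u + ((1 - ε : ℝ) : ℂ) := by
    unfold W
    push_cast
    ring
  rw [h, Complex.add_re, Complex.re_ofReal_mul, theta_cosh_re, Complex.ofReal_re]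

private theorem theta_cos_pos : 0 < Real.cos 1 := Real.cos_one_pos

private theorem theta_ge (ε : ℝ) (u : ℂ) (hu : |u.im| < 1) (h1 : -(1 / 2) ≤ ε) (h2 : ε ≤ 1) :
    1 / 2 * Real.cos 1 * Real.cosh u.re ≤ (W (ε : ℂ) u).re := by
  rw [theta_re]
  have h3 : Real.cos 1 ≤ Real.cos u.im := by
    rw [← Real.cos_abs u.im]
    exact Real.cos_le_cos_of_nonneg_of_le_pi (abs_nonneg _) (by linarith [Real.pi_gt_three]) hu.le
  have hc := Real.cosh_pos u.re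
  have h4 : Real.cosh u.re * Real.cos 1 ≤ Real.cosh u.re * Real.cos u.im :=
    mul_le_mul_of_nonneg_left h3 hc.le
  have h5 : 0 < Real.cosh u.re * Real.cos 1 := mul_pos hc theta_cos_pos
  nlinarith

private theorem theta_slit (ε : ℝ) (u : ℂ) (hu : |u.im| < 1) (h1 : -(1 / 2) ≤ ε) (h2 : ε ≤ 1) :
    W (ε : ℂ) u / 4 ∈ Complex.slitPlane := by
  left
  have h3 := theta_ge ε u hu h1 h2
  have h4 : 0 < 1 / 2 * Real.cos 1 * Real.cosh u.re :=
    mul_pos (mul_pos (by norm_num) theta_cos_pos) (Real.cosh_pos _)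
  have h5 : (W (ε : ℂ) u / 4).re = (W (ε : ℂ) u).re / 4 := by
    rw [show (4 : ℂ) = ((4 : ℝ) : ℂ) by norm_num, Complex.div_ofReal_re]
  rw [h5]
  linarith

private theorem theta_sub_im (θ : ℂ) (k : ℤ) (ℓ : ℝ) : (θ - (k : ℂ) * (ℓ : ℂ)).im = θ.im := by
  have : (k : ℂ) * (ℓ : ℂ) = ((k * ℓ : ℝ) : ℂ) := by push_cast; ring
  rw [this, Complex.sub_im, Complex.ofReal_im, sub_zero]

private theorem theta_sub_re (θ : ℂ) (k : ℤ) (ℓ : ℝ) :
    (θ - (k : ℂ) * (ℓ : ℂ)).re = θ.re - k * ℓ := by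
  have : (k : ℂ) * (ℓ : ℂ) = ((k * ℓ : ℝ) : ℂ) := by push_cast; ring
  rw [this, Complex.sub_re, Complex.ofReal_re]

private theorem theta_bound (hbnd : S_bnd) (hmaj : S_maj) (ℓ lam : ℝ) (hℓ : 0 < ℓ) (B : ℝ) :
    ∃ M : ℤ → ℝ, Summable M ∧ ∀ (k : ℤ) (ε : ℝ) (θ : ℂ), -(1 / 2) ≤ ε → ε ≤ 1 → |θ.im| < 1 →
      |θ.re| ≤ B → ‖T (sv lam) (ε : ℂ) (θ - k * ℓ)‖ ≤ M k := by
  obtain ⟨h1, h2⟩ := hmaj ℓ hℓ B
  refine ⟨fun k => 2 * Real.exp (Real.pi * |lam|) / Real.sqrt (1 / 2 * Real.cos 1) *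
    (2 * Real.exp (B / 2) * Real.exp (-(ℓ / 2) * |(k : ℝ)|)), h2.mul_left _, ?_⟩
  intro k ε θ hε1 hε2 hθ hB
  have h0 : 0 < 1 / 2 * Real.cos 1 := mul_pos (by norm_num) theta_cos_pos
  have h3 := theta_ge ε (θ - k * ℓ) (by rw [theta_sub_im]; exact hθ) hε1 hε2
  rw [theta_sub_re] at h3
  have hc := Real.cosh_pos (θ.re - k * ℓ)
  refine (hbnd lam _ _ (mul_pos h0 hc) h3).trans ?_
  rw [Real.sqrt_mul h0.le]
  have h5 := h1 θ.re k hB
  have h6 := Real.sqrt_pos.2 h0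
  have h7 := Real.sqrt_pos.2 hc
  calc 2 * Real.exp (Real.pi * |lam|) / (Real.sqrt (1 / 2 * Real.cos 1) *
        Real.sqrt (Real.cosh (θ.re - k * ℓ)))
      = 2 * Real.exp (Real.pi * |lam|) / Real.sqrt (1 / 2 * Real.cos 1) *
        (1 / Real.sqrt (Real.cosh (θ.re - k * ℓ))) := by
        rw [div_mul_div_comm, mul_one]
    _ ≤ _ := mul_le_mul_of_nonneg_left h5 (by positivity)

private theorem theta_open : IsOpen hstrip :=
  isOpen_lt (Complex.continuous_im.abs) continuous_const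

private theorem theta_diff (hbnd : S_bnd) (hmaj : S_maj) (ℓ lam : ℝ) (hℓ : 0 < ℓ) (ε : ℝ)
    (h1 : -(1 / 2) ≤ ε) (h2 : ε ≤ 1) : DifferentiableOn ℂ (A ℓ (sv lam) (ε : ℂ)) hstrip := by
  intro θ0 hθ0
  set B : ℝ := |θ0.re| + 1 with hB
  let U : Set ℂ := hstrip ∩ {θ : ℂ | |θ.re| < B}
  have hU : IsOpen U := theta_open.inter (isOpen_lt (Complex.continuous_re.abs) continuous_const)
  have hmem : θ0 ∈ U := ⟨hθ0, show |θ0.re| < B by rw [hB]; exact lt_add_one _⟩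
  obtain ⟨M, hM, hM2⟩ := theta_bound hbnd hmaj ℓ lam hℓ B
  have hdiff : DifferentiableOn ℂ (A ℓ (sv lam) (ε : ℂ)) U := by
    unfold A
    refine Complex.differentiableOn_tsum_of_summable_norm (u := M) hM ?_ hU ?_
    · intro k θ hθ
      apply DifferentiableAt.differentiableWithinAt
      have h4 := theta_slit ε (θ - k * ℓ) (by rw [theta_sub_im]; exact hθ.1) h1 h2
      unfold T
      apply DifferentiableAt.cexp
      apply DifferentiableAt.const_mul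
      have h5 : DifferentiableAt ℂ (fun y : ℂ => W (ε : ℂ) (y - k * ℓ) / 4) θ := by
        unfold W
        fun_prop
      exact h5.clog h4
    · intro k θ hθ
      exact hM2 k ε θ h1 h2 hθ.1 hθ.2.le
  exact (hdiff.differentiableAt (hU.mem_nhds hmem)).differentiableWithinAt

private theorem theta_joint (hbnd : S_bnd) (hmaj : S_maj) (ℓ lam : ℝ) (hℓ : 0 < ℓ) (K : Set ℂ)
    (hK : K ⊆ hstrip) (B : ℝ) (hB : ∀ θ ∈ K, |θ.re| ≤ B) :
    ContinuousOn (fun p : ℝ × ℂ => A ℓ (sv lam) (p.1 : ℂ) p.2) (Ioo (-(1 / 2)) (1 / 2) ×ˢ K) := by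
  obtain ⟨M, hM, hM2⟩ := theta_bound hbnd hmaj ℓ lam hℓ B
  unfold A
  refine continuousOn_tsum (u := M) ?_ hM ?_
  · intro k
    rintro ⟨ε, θ⟩ ⟨hε, hθ⟩
    apply ContinuousAt.continuousWithinAt
    have h1 : -(1 / 2) ≤ ε := hε.1.le
    have h2 : ε ≤ 1 := by have := hε.2; change ε < 1 / 2 at this; linarith
    have h4 := theta_slit ε (θ - k * ℓ) (by rw [theta_sub_im]; exact hK hθ) h1 h2
    have h5 : ContinuousAt (fun p : ℝ × ℂ => W (p.1 : ℂ) (p.2 - k * ℓ) / 4) (ε, θ) := by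
      unfold W
      fun_prop
    have h6 : ContinuousAt (fun p : ℝ × ℂ => Complex.log (W (p.1 : ℂ) (p.2 - k * ℓ) / 4)) (ε, θ) :=
      h5.clog h4
    exact (continuousAt_const.mul h6).cexp
  · rintro k ⟨ε, θ⟩ ⟨hε, hθ⟩
    have h2 : ε ≤ 1 := by have := hε.2; change ε < 1 / 2 at this; linarith
    exact hM2 k ε θ hε.1.le h2 (hK hθ) (hB θ hθ)

theorem p_theta : S_theta := by
  intro hbnd hmaj ℓ lam hℓ ε hε hlim
  refine ⟨fun j => theta_diff hbnd hmaj ℓ lam hℓ (ε j) (by linarith [(hε j).1]) (hε j).2, ?_⟩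
  rw [tendstoLocallyUniformlyOn_iff_forall_isCompact theta_open]
  intro K hK hKc
  obtain ⟨B, hB⟩ : ∃ B : ℝ, ∀ θ ∈ K, |θ.re| ≤ B := by
    obtain ⟨B, hB⟩ := hKc.isBounded.exists_norm_le
    exact ⟨B, fun θ hθ => (Complex.abs_re_le_norm θ).trans (hB θ hθ)⟩
  have h1 := theta_joint hbnd hmaj ℓ lam hℓ K hK B hB
  intro u hu
  have h0 : (0 : ℝ) ∈ Ioo (-(1 / 2) : ℝ) (1 / 2) := ⟨by norm_num, by norm_num⟩
  obtain ⟨v, hv, hv2⟩ := hKc.mem_uniformity_of_prod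
    (f := fun (e : ℝ) (θ : ℂ) => A ℓ (sv lam) (e : ℂ) θ) h1 h0 (tendsto_swap_uniformity hu)
  have hv' : v ∈ 𝓝 (0 : ℝ) := by
    rwa [IsOpen.nhdsWithin_eq isOpen_Ioo h0] at hv
  filter_upwards [hlim.eventually hv'] with j hj θ hθ
  have h3 := hv2 (ε j) hj θ hθ
  rw [Complex.ofReal_zero] at h3
  exact h3

end Pool.Agent.Lib.MP_619567_an
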