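import Pool.Agent.Lib.MP_619567_an.Stm

set_option autoImplicit false

open Filter Topology Set

namespace Pool.Agent.Lib.MP_619567_an

theorem p_topo : S_topo := by
  intro hcr hst hco htr hse f hf H hH hpos hneg ⟨N, hN⟩
  by_contra hcon
  push Not at hcon
  obtain ⟨T1, hT1⟩ := hcon
  obtain ⟨ts, hts, hNs⟩ := hN T1
  have step : ∀ (i : ℕ) (T0 : ℝ), ∃ t : ℝ, t < T0 ∧
      (if Even i then 0 < f (t, 0) else f (t, 0) < 0) := by
    intro i T0
    by_cases hi : Even i
    · obtain ⟨t, h1, h2⟩ := hpos T0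
      exact ⟨t, h1, by simpa [hi] using h2⟩
    · obtain ⟨t, h1, h2⟩ := hneg T0
      exact ⟨t, h1, by simpa [hi] using h2⟩
  choose g hg1 hg2 using step
  let τ : ℕ → ℝ := fun n => Nat.rec (g 0 ts) (fun n x => g (n + 1) x) n
  have hτ0 : τ 0 = g 0 ts := rfl
  have hτs : ∀ n, τ (n + 1) = g (n + 1) (τ n) := fun n => rfl
  have hanti : StrictAnti τ := strictAnti_nat_of_succ_lt (fun n => by
    rw [hτs]; exact hg1 _ _)
  have hlt : ∀ n, τ n < ts := by
    intro n
    exact lt_of_le_of_lt (hanti.antitone (Nat.zero_le n)) (by rw [hτ0]; exact hg1 _ _)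
  have hsign : ∀ n, (if Even n then 0 < f (τ n, 0) else f (τ n, 0) < 0) := by
    intro n
    cases n with
    | zero => rw [hτ0]; exact hg2 _ _
    | succ n => rw [hτs]; exact hg2 _ _
  have hpos' : ∀ n, Even n → 0 < f (τ n, 0) := fun n hn => by
    have := hsign n; simpa [hn] using this
  have hneg' : ∀ n, ¬ Even n → f (τ n, 0) < 0 := fun n hn => by
    have := hsign n; simpa [hn] using this
  have hne : ∀ n, f (τ n, 0) ≠ 0 := by
    intro n
    by_cases hn : Even n
    · exact (hpos' n hn).ne'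
    · exact (hneg' n hn).ne
  have hstr : ∀ t : ℝ, ((t, 0) : ℝ × ℝ) ∈ strip H := fun t => ⟨le_refl _, hH.le⟩
  have hmem : ∀ n, ((τ n, 0) : ℝ × ℝ) ∈ comp f H (τ n, 0) := fun n =>
    (hco f hf H (τ n, 0)).2.2.2.2 (hstr _) (hne n)
  have hunb : ∀ n, ¬ Bdd (comp f H (τ n, 0)) := fun n =>
    hT1 (τ n) (lt_trans (hlt n) hts) (hne n)
  have hsame : ∀ n p, ((τ n, 0) : ℝ × ℝ) ∈ comp f H p → ∀ x ∈ comp f H p, 0 < f x * f (τ n, 0) := by
    intro n p h x hx
    exact (hco f hf H p).2.1 x hx _ h
  have hdist : ∀ i j, i < j → comp f H (τ i, 0) ≠ comp f H (τ j, 0) := by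
    intro i j hij heq
    have hj : ((τ j, 0) : ℝ × ℝ) ∈ comp f H (τ i, 0) := by rw [heq]; exact hmem j
    have hprod := hsame i _ (hmem i) _ hj
    by_cases hp : (Even i ↔ Even j)
    · -- same parity
      have hij2 : i + 1 < j := by
        rcases Nat.lt_or_ge (i + 1) j with h | h
        · exact h
        · exfalso
          have : j = i + 1 := le_antisymm h hij
          subst this
          rw [Nat.even_add_one] at hp
          by_cases h3 : Even i
          · exact (hp.1 h3) h3
          · exact h3 (hp.2 h3)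
      have hc1 : ((τ (i + 1), 0) : ℝ × ℝ) ∉ comp f H (τ j, 0) := by
        intro hc
        rw [← heq] at hc
        have h4 := hsame i _ (hmem i) _ hc
        by_cases h5 : Even i
        · have h6 := hpos' i h5
          have h7 := hneg' (i + 1) (by rw [Nat.even_add_one]; exact not_not.2 h5)
          nlinarith
        · have h6 := hneg' i h5
          have h7 := hpos' (i + 1) (by rw [Nat.even_add_one]; exact h5)
          nlinarith
      have hi : ((τ i, 0) : ℝ × ℝ) ∈ comp f H (τ j, 0) := by rw [← heq]; exact hmem i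
      exact hunb (i + 1) (htr hcr hst hco f hf H hH (τ j) (τ i) (τ (i + 1)) (hanti hij2)
        (hanti (Nat.lt_succ_self i)) (hmem j) hi (hne (i + 1)) hc1)
    · by_cases h5 : Even i
      · have h8 : ¬ Even j := fun h => hp ⟨fun _ => h, fun _ => h5⟩
        have h6 := hpos' i h5
        have h7 := hneg' j h8
        nlinarith
      · have h8 : Even j := by
          by_contra h
          exact hp ⟨fun h9 => absurd h9 h5, fun h9 => absurd h9 h⟩
        have h6 := hneg' i h5
        have h7 := hpos' j h8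
        nlinarith
  have hdist' : ∀ i j, i ≠ j → comp f H (τ i, 0) ≠ comp f H (τ j, 0) := by
    intro i j hij
    rcases lt_or_gt_of_ne hij with h | h
    · exact hdist i j h
    · exact (hdist j i h).symm
  obtain ⟨t2, ht2, hN2⟩ := hN (τ (2 * N + 4))
  have hcross : ∀ n, n < 2 * N + 4 → (∃ y, ((ts, y) : ℝ × ℝ) ∈ comp f H (τ n, 0)) ∨
      (∃ y, ((t2, y) : ℝ × ℝ) ∈ comp f H (τ n, 0)) := by
    intro n hn
    have h1 : ∃ x ∈ comp f H (τ n, 0), max |ts| |t2| < |x.1| := by
      by_contra h
      push Not at h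
      exact hunb n ⟨_, h⟩
    obtain ⟨x, hx, hx1⟩ := h1
    have h2 : t2 < τ n := lt_of_lt_of_le ht2 (hanti.antitone hn.le)
    have hpc : IsPreconnected (comp f H (τ n, 0)) := isPreconnected_connectedComponentIn
    have hpi : IsPreconnected (Prod.fst '' comp f H (τ n, 0)) := hpc.image _ continuous_fst.continuousOn
    have hoc := hpi.ordConnected
    have h3 : τ n ∈ Prod.fst '' comp f H (τ n, 0) := ⟨_, hmem n, rfl⟩
    have h4 : x.1 ∈ Prod.fst '' comp f H (τ n, 0) := ⟨x, hx, rfl⟩
    rcases le_total 0 x.1 with h5 | h5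
    · left
      rw [abs_of_nonneg h5] at hx1
      have h6 : ts < x.1 := lt_of_le_of_lt ((le_abs_self _).trans (le_max_left _ _)) hx1
      have h7 : ts ∈ Prod.fst '' comp f H (τ n, 0) := hoc.out h3 h4 ⟨(hlt n).le, h6.le⟩
      obtain ⟨z, hz, hz1⟩ := h7
      exact ⟨z.2, by rw [← hz1]; exact hz⟩
    · right
      rw [abs_of_nonpos h5] at hx1
      have h6 : x.1 < t2 := by
        have := lt_of_le_of_lt ((neg_abs_le t2).trans (le_refl _) |> fun h => by
          have h9 := neg_le.1 (neg_abs_le t2)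
          exact (h9.trans (le_max_right |ts| |t2|))) hx1
        linarith
      have h7 : t2 ∈ Prod.fst '' comp f H (τ n, 0) := hoc.out h4 h3 ⟨h6.le, h2.le⟩
      obtain ⟨z, hz, hz1⟩ := h7
      exact ⟨z.2, by rw [← hz1]; exact hz⟩
  classical
  let S1 : Finset (Fin (2 * N + 4)) := Finset.univ.filter
    (fun i => ∃ y, ((ts, y) : ℝ × ℝ) ∈ comp f H (τ i, 0))
  let S2 : Finset (Fin (2 * N + 4)) := Finset.univ.filter
    (fun i => ∃ y, ((t2, y) : ℝ × ℝ) ∈ comp f H (τ i, 0))
  have hun : (Finset.univ : Finset (Fin (2 * N + 4))) ⊆ S1 ∪ S2 := by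
    intro i _
    rw [Finset.mem_union]
    rcases hcross i i.2 with h | h
    · left; exact Finset.mem_filter.2 ⟨Finset.mem_univ _, h⟩
    · right; exact Finset.mem_filter.2 ⟨Finset.mem_univ _, h⟩
  have hcard : 2 * N + 4 ≤ S1.card + S2.card := by
    have h1 := Finset.card_le_card hun
    rw [Finset.card_univ, Fintype.card_fin] at h1
    exact h1.trans (Finset.card_union_le _ _)
  have key : ∀ (t : ℝ), {θ : ℝ | θ ∈ Icc 0 H ∧ f (t, θ) = 0}.encard ≤ N →
      ∀ S : Finset (Fin (2 * N + 4)), (∀ i ∈ S, ∃ y, ((t, y) : ℝ × ℝ) ∈ comp f H (τ i, 0)) →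
      N + 2 ≤ S.card → False := by
    intro t ht S hS hc
    let emb := Finset.orderEmbOfCardLe S hc
    have he : ∀ i, emb i ∈ S := fun i => Finset.orderEmbOfCardLe_mem S hc i
    choose y hy using fun i : Fin (N + 2) => hS (emb i) (he i)
    have := hse hco f hf H hH t N ht (N + 2) (fun i => (τ (emb i), 0)) y hy (by
      intro i j hij
      apply hdist'
      intro h
      exact hij (emb.injective (Fin.ext h)))
    omega
  rcases le_or_gt (N + 2) S1.card with h | h
  · exact key ts hNs S1 (fun i hi => (Finset.mem_filter.1 hi).2) h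
  · exact key t2 hN2 S2 (fun i hi => (Finset.mem_filter.1 hi).2) (by omega)

end Pool.Agent.Lib.MP_619567_an
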