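import Pool.Agent.Lib.MP_619567_an.Stm

set_option autoImplicit false

open Filter Topology Set UpperHalfPlane

namespace Pool.Agent.Lib.MP_619567_an

/-- TRAP. -/
theorem p_trap : S_trap := by
  intro hcross hstrip hcomp f hf H hH a b c hac hcb ha hb hc hcn
  obtain ⟨hA1, _, hA3, hA4, _⟩ := hcomp f hf H (a, 0)
  obtain ⟨hC1, _, hC3, hC4, hC5⟩ := hcomp f hf H (c, 0)
  have hcc : ((c, 0) : ℝ × ℝ) ∈ comp f H (c, 0) := hC5 ⟨le_rfl, hH.le⟩ hc
  obtain ⟨P, hP⟩ := hA1 _ ha _ hb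
  -- the range of `P` is bounded
  have hPc : IsCompact (range P) := isCompact_range P.continuous
  obtain ⟨B, hB⟩ := (hPc.image (continuous_fst.abs)).bddAbove
  have hB' : ∀ x ∈ range P, |x.1| ≤ B := fun x hx => hB (mem_image_of_mem _ hx)
  by_contra hbd
  have hq : ∃ q ∈ comp f H (c, 0), B < |q.1| := by
    by_contra h
    push Not at h
    exact hbd ⟨B, h⟩
  obtain ⟨q, hq1, hq2⟩ := hq
  obtain ⟨Q, hQ⟩ := hC1 _ hcc _ hq1
  have h1 : ∀ x ∈ range P, 0 ≤ x.2 := by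
    rintro x ⟨t, rfl⟩
    exact (hA4 (hP t)).1.1
  have h2 : ∀ x ∈ range Q, 0 ≤ x.2 := by
    rintro x ⟨t, rfl⟩
    exact (hC4 (hQ t)).1.1
  have h3 : ∀ x ∈ range P, x.1 ≠ q.1 := by
    intro x hx h
    have := hB' x hx
    rw [h] at this
    exact absurd hq2 (not_lt.2 this)
  obtain ⟨w, ⟨s, hs⟩, ⟨t, ht⟩⟩ := hstrip hcross a b c q hac hcb P Q h1 h2 h3
  have hwA : w ∈ comp f H (a, 0) := hs ▸ hP s
  have hwC : w ∈ comp f H (c, 0) := ht ▸ hQ t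
  apply hcn
  rw [← hA3 w hwA, hC3 w hwC]
  exact hcc

end Pool.Agent.Lib.MP_619567_an
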