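import Pool.Agent.Lib.MP_619567_an.Stm

set_option autoImplicit false

open Filter Topology Set

namespace Pool.Agent.Lib.MP_619567_an

private theorem zero_union (S : ℝ → Set ℝ) (n : ℝ → ℕ) (t : Finset ℝ)
    (h : ∀ x ∈ t, (S x).encard ≤ n x) : (⋃ x ∈ t, S x).encard ≤ ((∑ x ∈ t, n x : ℕ) : ℕ∞) := by
  classical
  induction t using Finset.induction_on with
  | empty => simp
  | insert x t hx ih =>
    rw [Finset.set_biUnion_insert, Finset.sum_insert hx]
    refine (Set.encard_union_le _ _).trans ?_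
    push_cast
    have h1 := ih fun y hy => h y (Finset.mem_insert_of_mem hy)
    push_cast at h1
    exact add_le_add (h x (Finset.mem_insert_self _ _)) h1

/-- few zeros near one point -/
private theorem zero_local (hrolle : S_rolle) (hdre : S_dre) (hnonflat : S_nonflat)
    (hdconv : S_dconv) (U : Set ℂ) (h : ℕ → ℂ → ℂ) (g : ℂ → ℂ) (hU : IsOpen U)
    (hreal : ∀ x : ℝ, (x : ℂ) ∈ U) (hh : ∀ j, DifferentiableOn ℂ (h j) U)
    (hconv : TendstoLocallyUniformlyOn h g atTop U) (hg : ∃ x : ℝ, (g x).re ≠ 0) (x : ℝ) :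
    ∃ (n : ℕ) (δ : ℝ), 0 < δ ∧
      ∀ᶠ j in atTop, {y : ℝ | y ∈ Ioo (x - δ) (x + δ) ∧ (h j y).re = 0}.encard ≤ n := by
  have hgd : DifferentiableOn ℂ g U := hconv.differentiableOn (Eventually.of_forall hh) hU
  obtain ⟨n, hn⟩ := hnonflat U g hU hreal hgd hg x
  have hD := hdconv U h g hU hh hconv n
  have hcont : ContinuousAt (iteratedDeriv n g) (x : ℂ) := by
    have h1 : AnalyticOnNhd ℂ g U := hgd.analyticOnNhd hU
    have h2 := h1.iterated_deriv n
    rw [← iteratedDeriv_eq_iterate] at h2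
    exact (h2 x (hreal x)).continuousAt
  obtain ⟨c, hc⟩ : ∃ c, c = |(iteratedDeriv n g x).re| / 3 := ⟨_, rfl⟩
  have hc0 : 0 < c := by
    rw [hc]
    have := abs_pos.2 hn
    linarith
  -- uniform closeness
  obtain ⟨t, ht, hev⟩ := Metric.tendstoLocallyUniformlyOn_iff.1 hD c hc0 (x : ℂ) (hreal x)
  have ht' : t ∈ 𝓝 (x : ℂ) := by rwa [hU.nhdsWithin_eq (hreal x)] at ht
  have h3 : ∀ᶠ y : ℂ in 𝓝 (x : ℂ), y ∈ t ∧ dist (iteratedDeriv n g y) (iteratedDeriv n g x) < c :=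
    Filter.Eventually.and (show ∀ᶠ y : ℂ in 𝓝 (x : ℂ), y ∈ t from ht')
      ((Metric.tendsto_nhds.1 hcont) c hc0)
  have h4 : ∀ᶠ y : ℝ in 𝓝 x, (y : ℂ) ∈ t ∧
      dist (iteratedDeriv n g (y : ℂ)) (iteratedDeriv n g x) < c :=
    (Complex.continuous_ofReal.continuousAt (x := x)).eventually h3
  obtain ⟨δ, hδ, hball⟩ := Metric.eventually_nhds_iff.1 h4
  refine ⟨n, δ, hδ, ?_⟩
  filter_upwards [hev] with j hj
  have hne : ∀ y ∈ Ioo (x - δ) (x + δ), (iteratedDeriv n (h j) y).re ≠ 0 := by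
    intro y hy h0
    have hyx : dist y x < δ := by
      rw [Real.dist_eq, abs_lt]
      constructor
      · linarith [hy.1]
      · linarith [hy.2]
    obtain ⟨h5, h6⟩ := hball hyx
    have h7 := hj y h5
    have h8 : |(iteratedDeriv n g x).re| ≤ dist (iteratedDeriv n g (y : ℂ)) (iteratedDeriv n g x) +
        dist (iteratedDeriv n g (y : ℂ)) (iteratedDeriv n (h j) y) := by
      have e : (iteratedDeriv n g x).re = -(iteratedDeriv n g (y : ℂ) - iteratedDeriv n g x).re +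
          (iteratedDeriv n g (y : ℂ) - iteratedDeriv n (h j) y).re := by
        rw [Complex.sub_re, Complex.sub_re, h0]
        ring
      rw [e, dist_eq_norm, dist_eq_norm]
      refine (abs_add_le _ _).trans (add_le_add ?_ (Complex.abs_re_le_norm _))
      rw [abs_neg]
      exact Complex.abs_re_le_norm _
    linarith
  by_contra hcon
  rw [not_le] at hcon
  have h9 : ((n + 1 : ℕ) : ℕ∞) ≤ {y : ℝ | y ∈ Ioo (x - δ) (x + δ) ∧ (h j y).re = 0}.encard := by
    have := Order.add_one_le_of_lt hcon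
    exact_mod_cast this
  obtain ⟨Z, hZ1, hZ2⟩ := Set.exists_subset_encard_eq h9
  have hZf : Z.Finite := Set.finite_of_encard_eq_coe hZ2
  have hZc : hZf.toFinset.card = n + 1 := by
    rw [hZf.encard_eq_coe_toFinset_card] at hZ2
    exact_mod_cast hZ2
  obtain ⟨hs, hd⟩ := hdre U (h j) hU hreal (hh j)
  obtain ⟨y, hy, hy0⟩ := hrolle n (fun y : ℝ => (h j y).re) hs (Ioo (x - δ) (x + δ)) ordConnected_Ioo
    hZf.toFinset (fun z hz => hZ1 (hZf.mem_toFinset.1 hz)) hZc.ge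
  rw [hd n y] at hy0
  exact hne y hy hy0

theorem p_zero : S_zero := by
  intro hrolle hdre hnonflat hdconv U h g hU hreal hh hconv hg a b
  have hloc := zero_local hrolle hdre hnonflat hdconv U h g hU hreal hh hconv hg
  choose n δ hδ hev using hloc
  obtain ⟨t, _, hcov⟩ := isCompact_Icc (a := a) (b := b) |>.elim_nhds_subcover
    (fun x => Ioo (x - δ x) (x + δ x)) (fun x _ => Ioo_mem_nhds (by linarith [hδ x])
      (by linarith [hδ x]))
  refine ⟨∑ x ∈ t, n x, ?_⟩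
  have hall : ∀ᶠ j in atTop, ∀ x ∈ t,
      {y : ℝ | y ∈ Ioo (x - δ x) (x + δ x) ∧ (h j y).re = 0}.encard ≤ n x :=
    (Filter.eventually_all_finset t).2 fun x _ => hev x
  filter_upwards [hall] with j hj
  refine le_trans (Set.encard_le_encard ?_) (zero_union
    (fun x => {y : ℝ | y ∈ Ioo (x - δ x) (x + δ x) ∧ (h j y).re = 0}) n t hj)
  rintro y ⟨hy1, hy2⟩
  obtain ⟨x, hx, hyx⟩ := Set.mem_iUnion₂.1 (hcov hy1)
  exact Set.mem_iUnion₂.2 ⟨x, hx, hyx, hy2⟩

end Pool.Agent.Lib.MP_619567_an
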